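import Pool.Graph.R_seed8.Helper514.IoD

/-!
# Topology: sphere-valued maps on compact subsets of euclidean space
-/

set_option autoImplicit false

open Filter Topology Set Metric

namespace Pool.Agent.H72.Dj

section Retraction

variable {E : Type} [NormedAddCommGroup E] [InnerProductSpace ℝ E]

/-- Radial projection to the unit ball. -/
noncomputable def rp (x : E) : E := (max 1 ‖x‖)⁻¹ • x

omit [InnerProductSpace ℝ E] in
theorem rp_pos (x : E) : 0 < max 1 ‖x‖ := lt_of_lt_of_le one_pos (le_max_left _ _)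

theorem continuous_rp : Continuous (rp : E → E) := by
  unfold rp
  apply Continuous.smul _ continuous_id
  exact (continuous_const.max continuous_norm).inv₀ (fun x => (rp_pos x).ne')

theorem norm_rp_le (x : E) : ‖rp x‖ ≤ 1 := by
  unfold rp
  rw [norm_smul, norm_inv, Real.norm_eq_abs, abs_of_pos (rp_pos x), inv_mul_le_iff₀ (rp_pos x),
    mul_one]
  exact le_max_right _ _

theorem rp_of_le {x : E} (h : ‖x‖ ≤ 1) : rp x = x := by
  unfold rp
  rw [max_eq_left h, inv_one, one_smul]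

variable [FiniteDimensional ℝ E]

/-- There is no retraction of the closed unit ball to the sphere. -/
theorem no_retraction (r : E → E) (hr : ContinuousOn r (closedBall 0 1))
    (h1 : ∀ x ∈ closedBall (0 : E) 1, ‖r x‖ = 1) (h2 : ∀ x, ‖x‖ = 1 → r x = x) : False := by
  classical
  have hrc : Continuous fun x => r (rp x) :=
    hr.comp_continuous continuous_rp fun x => by simpa using norm_rp_le x
  set φ : E → E := fun x => if ‖x‖ ≤ 1 / 4 then (1 / 4 : ℝ) • r (rp ((4 : ℝ) • x)) else x with hφ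
  have hn4 : ∀ x : E, ‖(4 : ℝ) • x‖ = 4 * ‖x‖ := fun x => by
    rw [norm_smul]; norm_num
  have hc : Continuous φ := by
    refine Continuous.if_le ?_ continuous_id continuous_norm continuous_const ?_
    · exact (hrc.comp (continuous_const_smul (4 : ℝ))).const_smul (1 / 4 : ℝ)
    · intro x hx
      have h3 : ‖(4 : ℝ) • x‖ = 1 := by rw [hn4, hx]; norm_num
      rw [rp_of_le h3.le, h2 _ h3, smul_smul]
      norm_num
  have hnorm : ∀ x : E, ‖(1 / 4 : ℝ) • r (rp ((4 : ℝ) • x))‖ = 1 / 4 := by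
    intro x
    rw [norm_smul, h1 _ (by simpa using norm_rp_le _)]
    norm_num
  obtain ⟨x, hx, hx0⟩ := Helper514.IoD.exists_zero_of_close φ hc.continuousOn (by
    intro x _
    by_cases hx : ‖x‖ ≤ 1 / 4
    · simp only [hφ, if_pos hx]
      calc ‖(1 / 4 : ℝ) • r (rp ((4 : ℝ) • x)) - x‖
          ≤ ‖(1 / 4 : ℝ) • r (rp ((4 : ℝ) • x))‖ + ‖x‖ := norm_sub_le _ _
        _ ≤ 1 / 4 + 1 / 4 := by rw [hnorm]; linarith
        _ = 1 / 2 := by norm_num
    · simp only [hφ, if_neg hx, sub_self, norm_zero]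
      norm_num)
  by_cases hx' : ‖x‖ ≤ 1 / 4
  · simp only [hφ, if_pos hx'] at hx0
    have := hnorm x
    rw [hx0, norm_zero] at this
    norm_num at this
  · simp only [hφ, if_neg hx'] at hx0
    rw [hx0, norm_zero] at hx'
    norm_num at hx'

end Retraction

section Factor

/-- Continuous maps factor through continuous maps of compact spaces. -/
theorem factor {K Y Z : Type} [TopologicalSpace K] [CompactSpace K] [TopologicalSpace Y] [T2Space Y]
    [TopologicalSpace Z] (f : K → Y) (hf : Continuous f) (g : K → Z) (hg : Continuous g)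
    (h : ∀ x y, f x = f y → g x = g y) : ∃ g' : range f → Z, Continuous g' ∧
      ∀ x, g' ⟨f x, mem_range_self x⟩ = g x := by
  have hq : IsQuotientMap (rangeFactorization f) := by
    have hcont : Continuous (rangeFactorization f) := hf.subtype_mk _
    exact hcont.isClosedMap.isQuotientMap hcont rangeFactorization_surjective
  let F : C(K, range f) := ⟨rangeFactorization f, hq.continuous⟩
  let g₁ : C(K, Z) := ⟨g, hg⟩
  have hfac : Function.FactorsThrough g₁ F := by
    intro x y hxy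
    exact h x y (congrArg Subtype.val hxy)
  refine ⟨IsQuotientMap.lift (f := F) hq g₁ hfac, ContinuousMap.continuous _, fun x => ?_⟩
  have := IsQuotientMap.lift_comp (f := F) hq g₁ hfac
  exact congrFun (congrArg DFunLike.coe this) x

end Factor

section Extend

variable {W : Type} [NormedAddCommGroup W] [NormedSpace ℝ W] [FiniteDimensional ℝ W]
variable {F : Type} [NormedAddCommGroup F] [NormedSpace ℝ F] [FiniteDimensional ℝ F]

/-- Maps from a compact subset of `W` to the unit sphere of `F` extend to `W`, if the dimension of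
`W` is less than the dimension of `F`. -/
theorem extend_sphere (hd : Module.finrank ℝ W < Module.finrank ℝ F) {J : Set W} (hJ : IsClosed J)
    (f : J → F) (hf : Continuous f) (h1 : ∀ x, ‖f x‖ = 1) :
    ∃ g : W → F, Continuous g ∧ (∀ x, ‖g x‖ = 1) ∧ ∀ x : J, g x = f x := by
  obtain ⟨f₁, hf₁⟩ := ContinuousMap.exists_restrict_eq hJ (⟨f, hf⟩ : C(J, F))
  have hf₁' : ∀ x : J, f₁ x = f x := fun x => congrFun (congrArg DFunLike.coe hf₁) x
  obtain ⟨p, hp, hpd, -⟩ := f₁.continuous.exists_contDiff_approx (ε := fun _ => 1 / 4) 1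
    continuous_const (fun _ => by norm_num)
  have hdense := ContDiff.dense_compl_range_of_finrank_lt_finrank hp hd
  obtain ⟨c, hc, hcr⟩ := Metric.dense_iff.1 hdense 0 (1 / 8) (by norm_num)
  have hcn : ‖c‖ < 1 / 8 := by simpa using hc
  set G : W → F := fun x => p x - c with hG
  have hGc : Continuous G := hp.continuous.sub continuous_const
  have hG0 : ∀ x, G x ≠ 0 := fun x h0 => hcr ⟨x, sub_eq_zero.1 h0⟩
  have hGf : ∀ x, ‖G x - f₁ x‖ < 3 / 8 := by
    intro x
    have h2 := hpd x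
    rw [dist_eq_norm] at h2
    calc ‖G x - f₁ x‖ = ‖(p x - f₁ x) - c‖ := by
          have : G x - f₁ x = (p x - f₁ x) - c := by simp only [hG]; abel
          rw [this]
      _ ≤ ‖p x - f₁ x‖ + ‖c‖ := norm_sub_le _ _
      _ < 1 / 4 + 1 / 8 := add_lt_add h2 hcn
      _ = 3 / 8 := by norm_num
  set l : W → ℝ := fun x => max 0 (min 1 (4 * ‖f₁ x‖ - 3)) with hl
  have hlc : Continuous l := by
    have := f₁.continuous
    fun_prop
  set H : W → F := fun x => f₁ x + (1 - l x) • (G x - f₁ x) with hH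
  have hHc : Continuous H := by
    have := f₁.continuous
    fun_prop
  have hH0 : ∀ x, H x ≠ 0 := by
    intro x h0
    by_cases hx : ‖f₁ x‖ ≤ 3 / 4
    · have : l x = 0 := by
        simp only [hl]
        rw [max_eq_left]
        exact (min_le_right _ _).trans (by linarith)
      rw [hH] at h0
      simp only [this, sub_zero, one_smul, add_sub_cancel] at h0
      exact hG0 x h0
    · push Not at hx
      have hl0 : 0 ≤ l x := le_max_left _ _
      have hl1 : l x ≤ 1 := max_le zero_le_one (min_le_left _ _)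
      have h3 : f₁ x = -((1 - l x) • (G x - f₁ x)) := eq_neg_of_add_eq_zero_left h0
      have h4 : ‖f₁ x‖ = (1 - l x) * ‖G x - f₁ x‖ := by
        conv_lhs => rw [h3]
        rw [norm_neg, norm_smul, Real.norm_of_nonneg (by linarith)]
      have h5 := hGf x
      have h6 := norm_nonneg (G x - f₁ x)
      nlinarith
  refine ⟨fun x => ‖H x‖⁻¹ • H x, ?_, ?_, ?_⟩
  · exact (hHc.norm.inv₀ fun x => norm_ne_zero_iff.2 (hH0 x)).smul hHc
  · intro x
    have := norm_pos_iff.2 (hH0 x)
    rw [norm_smul, norm_inv, norm_norm, inv_mul_cancel₀ this.ne']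
  · intro x
    have h2 : ‖f₁ x‖ = 1 := by rw [hf₁', h1]
    have h3 : l x = 1 := by
      simp only [hl, h2]
      norm_num
    have h4 : H x = f x := by
      simp only [hH, h3, sub_self, zero_smul, add_zero, hf₁']
    change ‖H x‖⁻¹ • H x = f x
    rw [h4, h1, inv_one, one_smul]

end Extend

section Sphere

variable {E : Type} [NormedAddCommGroup E] [InnerProductSpace ℝ E]

/-- The map from the unit ball to the unit sphere of `E × ℝ` which collapses the boundary to the
north pole. -/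
noncomputable def q (b : E) : WithLp 2 (E × ℝ) :=
  WithLp.toLp 2 ((2 * √(1 - ‖b‖ ^ 2)) • b, 2 * ‖b‖ ^ 2 - 1)

theorem continuous_q : Continuous (q : E → WithLp 2 (E × ℝ)) := by
  unfold q
  refine (WithLp.prod_continuous_toLp 2 E ℝ).comp ?_
  fun_prop

theorem norm_q {b : E} (hb : ‖b‖ ≤ 1) : ‖q b‖ = 1 := by
  have h0 : 0 ≤ 1 - ‖b‖ ^ 2 := by nlinarith [norm_nonneg b]
  have h1 : ‖q b‖ ^ 2 = 1 := by
    rw [WithLp.prod_norm_sq_eq_of_L2]
    change ‖(2 * √(1 - ‖b‖ ^ 2)) • b‖ ^ 2 + ‖2 * ‖b‖ ^ 2 - 1‖ ^ 2 = 1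
    rw [norm_smul, Real.norm_of_nonneg (by positivity), mul_pow, mul_pow, Real.sq_sqrt h0,
      Real.norm_eq_abs, sq_abs]
    ring
  have h2 : (0 : ℝ) ≤ ‖q b‖ := norm_nonneg _
  nlinarith

theorem q_eq {b b' : E} (hb : ‖b‖ ≤ 1) (h : q b = q b') :
    b = b' ∨ (‖b‖ = 1 ∧ ‖b'‖ = 1) := by
  have h1 : (2 * √(1 - ‖b‖ ^ 2)) • b = (2 * √(1 - ‖b'‖ ^ 2)) • b' :=
    congrArg (fun w : WithLp 2 (E × ℝ) => w.fst) h
  have h2 : 2 * ‖b‖ ^ 2 - 1 = 2 * ‖b'‖ ^ 2 - 1 :=
    congrArg (fun w : WithLp 2 (E × ℝ) => w.snd) h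
  have h3 : ‖b‖ = ‖b'‖ := by
    have := norm_nonneg b
    have := norm_nonneg b'
    nlinarith
  by_cases h4 : ‖b‖ = 1
  · exact Or.inr ⟨h4, h3 ▸ h4⟩
  · left
    rw [← h3] at h1
    have h5 : ‖b‖ < 1 := lt_of_le_of_ne hb h4
    have h6 : 0 < 1 - ‖b‖ ^ 2 := by nlinarith [norm_nonneg b]
    have h7 := Real.sqrt_pos.2 h6
    exact smul_right_injective E (by positivity : (2 * √(1 - ‖b‖ ^ 2)) ≠ 0) h1

theorem q_eq_of {b b' : E} (hb : ‖b‖ = 1) (hb' : ‖b'‖ = 1) : q b = q b' := by
  simp [q, hb, hb']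

theorem exists_q [Nontrivial E] {w : WithLp 2 (E × ℝ)} (hw : ‖w‖ = 1) :
    ∃ b : E, ‖b‖ ≤ 1 ∧ q b = w := by
  have h1 : ‖w.fst‖ ^ 2 + ‖w.snd‖ ^ 2 = 1 := by
    rw [← WithLp.prod_norm_sq_eq_of_L2, hw]; norm_num
  rw [Real.norm_eq_abs, sq_abs] at h1
  have hx := norm_nonneg w.fst
  have ht1 : w.snd ≤ 1 := by nlinarith
  have ht2 : -1 ≤ w.snd := by nlinarith
  rcases ht1.eq_or_lt with ht | ht
  · obtain ⟨b, hb⟩ := exists_norm_eq E (zero_le_one (α := ℝ))
    refine ⟨b, hb.le, ?_⟩
    have h2 : w.fst = 0 := by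
      rw [ht] at h1
      have : ‖w.fst‖ = 0 := by nlinarith
      exact norm_eq_zero.1 this
    have h3 : q b = WithLp.toLp 2 ((0 : E), (1 : ℝ)) := by
      simp only [q, hb]
      norm_num
    rw [h3]
    refine (WithLp.equiv 2 (E × ℝ)).injective ?_
    exact Prod.ext h2.symm ht.symm
  · set s : ℝ := √((1 - w.snd) / 2) with hs
    have hs0 : 0 < s := Real.sqrt_pos.2 (by linarith)
    have hs2 : s ^ 2 = (1 - w.snd) / 2 := Real.sq_sqrt (by linarith)
    have hb : ‖(2 * s)⁻¹ • w.fst‖ ^ 2 = (1 + w.snd) / 2 := by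
      rw [norm_smul, norm_inv, Real.norm_of_nonneg (by positivity), mul_pow, inv_pow, mul_pow, hs2]
      have : (1 - w.snd) ≠ 0 := by linarith
      field_simp
      nlinarith
    refine ⟨(2 * s)⁻¹ • w.fst, ?_, ?_⟩
    · have := norm_nonneg ((2 * s)⁻¹ • w.fst)
      nlinarith
    · have h4 : 1 - ‖(2 * s)⁻¹ • w.fst‖ ^ 2 = (1 - w.snd) / 2 := by rw [hb]; ring
      have h5 : q ((2 * s)⁻¹ • w.fst) = WithLp.toLp 2 (w.fst, w.snd) := by
        simp only [q]
        rw [h4, ← hs, hb, smul_smul, mul_inv_cancel₀ (by positivity), one_smul]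
        congr 2
        ring
      rw [h5]
      rfl

end Sphere

end Pool.Agent.H72.Dj
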