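import Pool.Agent.H72.Dj.T9

/-!
# Assembly
-/

set_option autoImplicit false

open Filter Topology Set Metric Pool.Agent.TH289.C

namespace Pool.Agent.H72.Dj

section Asm

variable {V : Type} [NormedAddCommGroup V] [NormedSpace ℝ V] {G : Type} [Group G] {E : Type}
  [NormedAddCommGroup E] [InnerProductSpace ℝ E]
variable {C : Set V} {τ : V →L[ℝ] ℝ} {α : G →* (Sph E ≃ₜ Sph E)} {ρ : G →* (V ≃L[ℝ] V)}

/-- Proper and cocompact. -/
def Divides (C : Set V) (τ : V →L[ℝ] ℝ) (ρ : G →* (V ≃L[ℝ] V)) : Prop :=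
  Prop' C τ ρ ∧ ∃ K ⊆ Dom C τ, IsCompact K ∧ ∀ v ∈ Dom C τ, ∃ g, pa τ ρ g v ∈ K

/-- The dichotomy. -/
theorem dichotomy [FiniteDimensional ℝ E] [FiniteDimensional ℝ V]
    (hE : 2 ≤ Module.finrank ℝ E) (hV : Module.finrank ℝ V ≤ Module.finrank ℝ E + 1)
    (hα : IsConvergenceAction α) (hmin : ∀ x, Dense (range fun g => α g x))
    (hco : CocompactOnTriples α) (h : IsStrictCone C τ)
    (h0 : (0 : V) ∉ C) (hpres : ∀ g, ∀ v ∈ C, ρ g v ∈ C) :
    Divides C τ ρ ∨ ∀ R : Set (Sph E × V), IsClosed R → (∀ x v, (x, v) ∈ R → v ∈ Kbar C τ) →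
      (∀ g x v, (x, v) ∈ R → (α g x, pa τ ρ g v) ∈ R) → ∀ x x' v, (x, v) ∈ R → (x', v) ∈ R := by
  have hcS : CompactSpace (Sph E) := compactSpace_sph
  have hinf : Infinite (Sph E) := infinite_sph hE
  by_cases hp : Prop' C τ ρ
  · exact Or.inl ⟨hp, cocompact_of_proper hE hV hα hco h h0 hpres hp⟩
  · exact Or.inr fun R hR hRK hRinv => disjoint_cone hα hmin h h0 hpres hp hR hRK hRinv

/-- An equivariant map with a point of continuity. -/
theorem divides_of_map [FiniteDimensional ℝ E] [FiniteDimensional ℝ V]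
    (hE : 2 ≤ Module.finrank ℝ E) (hV : Module.finrank ℝ V ≤ Module.finrank ℝ E + 1)
    (hα : IsConvergenceAction α) (hmin : ∀ x, Dense (range fun g => α g x))
    (hco : CocompactOnTriples α) (h : IsStrictCone C τ)
    (h0 : (0 : V) ∉ C) (hpres : ∀ g, ∀ v ∈ C, ρ g v ∈ C) {f : Sph E → V}
    (hfK : ∀ x, f x ∈ Kbar C τ) (hfe : ∀ g x, f (α g x) = pa τ ρ g (f x))
    {z : Sph E} (hz : ContinuousAt f z) (hne : ∃ x y, f x ≠ f y) : Divides C τ ρ := by
  rcases dichotomy hE hV hα hmin hco h h0 hpres with h1 | h1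
  · exact h1
  exfalso
  set Γ : Set (Sph E × V) := range fun x => (x, f x) with hΓ
  have hK : IsClosed {p : Sph E × V | p.2 ∈ Kbar C τ} :=
    isClosed_Kbar.preimage continuous_snd
  have hRK : ∀ x v, (x, v) ∈ closure Γ → v ∈ Kbar C τ := by
    intro x v hxv
    exact (closure_minimal (by rintro _ ⟨x, rfl⟩; exact hfK x) hK) hxv
  have hinv : ∀ g x v, (x, v) ∈ closure Γ → (α g x, pa τ ρ g v) ∈ closure Γ := by
    intro g x v hxv
    have hc : ContinuousAt (fun p : Sph E × V => (α g p.1, pa τ ρ g p.2)) (x, v) := by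
      refine ContinuousAt.prodMk ?_ ?_
      · exact ((α g).continuous.comp continuous_fst).continuousAt
      · exact ContinuousAt.comp (g := pa τ ρ g) (f := Prod.snd)
          (continuousAt_pa h hpres g (hRK x v hxv)) continuous_snd.continuousAt
    have h2 := mem_closure_image hc hxv
    refine closure_mono ?_ h2
    rintro _ ⟨_, ⟨y, rfl⟩, rfl⟩
    exact ⟨α g y, by simp only [hfe]⟩
  have h2 := h1 (closure Γ) isClosed_closure hRK hinv
  have h3 : ∀ v, (z, v) ∈ closure Γ → v = f z := by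
    intro v hv
    by_contra hne'
    obtain ⟨U, W, hU, hW, hUW⟩ := t2_separation_nhds hne'
    have h4 : f ⁻¹' W ∈ 𝓝 z := hz hW
    obtain ⟨⟨y, w⟩, ⟨hy1, hy2⟩, ⟨y', hy'⟩⟩ := mem_closure_iff_nhds.1 hv _ (prod_mem_nhds h4 hU)
    have e1 : y' = y := congrArg Prod.fst hy'
    have e2 : f y' = w := congrArg Prod.snd hy'
    simp only at hy1 hy2
    rw [← e2, e1] at hy2
    exact Set.disjoint_left.1 hUW hy2 hy1
  obtain ⟨x, y, hxy⟩ := hne
  have e : ∀ x, f x = f z := fun x => h3 _ (h2 x z (f x) (subset_closure ⟨x, rfl⟩))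
  exact hxy ((e x).trans (e y).symm)

/-- An equivariant map of the boundary of the domain to the sphere. -/
theorem factor_homeo [FiniteDimensional ℝ E] [FiniteDimensional ℝ V]
    (hE : 2 ≤ Module.finrank ℝ E) (hV2 : 2 ≤ Module.finrank ℝ V)
    (hV : Module.finrank ℝ V ≤ Module.finrank ℝ E + 1)
    (hα : IsConvergenceAction α) (hmin : ∀ x, Dense (range fun g => α g x))
    (hco : CocompactOnTriples α) (h : IsStrictCone C τ)
    (h0 : (0 : V) ∉ C) (hpres : ∀ g, ∀ v ∈ C, ρ g v ∈ C) {f : Bd C τ → Sph E}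
    (hf : Continuous f) (hfe : ∀ g (v v' : Bd C τ), (v' : V) = pa τ ρ g v → f v' = α g (f v))
    (hne : Nonempty (Bd C τ)) : Divides C τ ρ ∧ Function.Bijective f := by
  have hcS : CompactSpace (Sph E) := compactSpace_sph
  have hinf : Infinite (Sph E) := infinite_sph hE
  have hBcl : IsClosed (Bd C τ) := by
    have : Bd C τ = Kbar C τ ∩ Cᶜ := by
      ext v
      constructor
      · rintro ⟨h1, h2, h3⟩; exact ⟨⟨h1, h3⟩, h2⟩
      · rintro ⟨⟨h1, h3⟩, h2⟩; exact ⟨h1, h2, h3⟩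
    rw [this]
    exact isClosed_Kbar.inter h.isOpen.isClosed_compl
  have hBc : IsCompact (Bd C τ) :=
    (isCompact_Kbar h).of_isClosed_subset hBcl fun v hv => ⟨hv.1, hv.2.2⟩
  have hcB : CompactSpace (Bd C τ) := isCompact_iff_compactSpace.1 hBc
  have hpB : ∀ g, ∀ v ∈ Bd C τ, pa τ ρ g v ∈ Bd C τ := by
    intro g v hv
    have hvK : v ∈ Kbar C τ := ⟨hv.1, hv.2.2⟩
    have h1 := pa_kbar h hpres g hvK
    refine ⟨h1.1, fun h2 => hv.2.1 ?_, h1.2⟩
    have h3 := pa_dom h hpres g⁻¹ (v := pa τ ρ g v) ⟨h2, h1.2⟩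
    rw [pa_inv h hpres g hvK] at h3
    exact h3.1
  have hfe' : ∀ g (v : Bd C τ), f ⟨pa τ ρ g v, hpB g v v.2⟩ = α g (f v) := fun g v =>
    hfe g v ⟨pa τ ρ g v, hpB g v v.2⟩ rfl
  -- surjectivity
  have hsurj : Function.Surjective f := by
    obtain ⟨v₀⟩ := hne
    intro x
    have hcl : IsClosed (range f) := (isCompact_range hf).isClosed
    have h1 : (range fun g => α g (f v₀)) ⊆ range f := by
      rintro _ ⟨g, rfl⟩
      exact ⟨_, hfe' g v₀⟩
    exact (hcl.closure_subset_iff.2 h1) (hmin (f v₀) x)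
  have hdiv : Divides C τ ρ := by
    rcases dichotomy hE hV hα hmin hco h h0 hpres with h1 | h1
    · exact h1
    exfalso
    have hc : Continuous fun v : Bd C τ => (f v, (v : V)) := hf.prodMk continuous_subtype_val
    have hR : IsClosed (range fun v : Bd C τ => (f v, (v : V))) := (isCompact_range hc).isClosed
    have h2 := h1 _ hR (by
      rintro x v ⟨w, hw⟩
      have e2 : (w : V) = v := congrArg Prod.snd hw
      rw [← e2]
      exact ⟨w.2.1, w.2.2.2⟩) (by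
      rintro g x v ⟨w, hw⟩
      have e1 : f w = x := congrArg Prod.fst hw
      have e2 : (w : V) = v := congrArg Prod.snd hw
      refine ⟨⟨pa τ ρ g w, hpB g w w.2⟩, ?_⟩
      refine Prod.ext ?_ ?_
      · change f ⟨pa τ ρ g w, hpB g w w.2⟩ = α g x
        rw [hfe', e1]
      · change pa τ ρ g w = pa τ ρ g v
        rw [e2])
    obtain ⟨v₀⟩ := hne
    obtain ⟨x, hx⟩ := exists_ne (f v₀)
    obtain ⟨w, hw⟩ := h2 (f v₀) x v₀ ⟨v₀, rfl⟩
    have e1 : f w = x := congrArg Prod.fst hw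
    have e2 : (w : V) = v₀ := congrArg Prod.snd hw
    have e3 : w = v₀ := Subtype.ext e2
    exact hx (by rw [← e1, e3])
  refine ⟨hdiv, ?_, hsurj⟩
  obtain ⟨hp, -⟩ := hdiv
  have key : ∀ x, ∃ q : V, ∀ v : Bd C τ, f v = x → (v : V) = q := by
    intro x
    obtain ⟨g, a, b, hab, hconv, hga⟩ := conical hE hα hco x
    obtain ⟨z, hz⟩ := exists_triple hE
    have hcof := hconv.cofinite hz
    obtain ⟨φ, p, q, hφ, hpB', hqB, hpq⟩ := conv_cone hV2 h h0 hpres hp hcof
    have hfp : ∀ v : Bd C τ, (v : V) ≠ q →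
        Tendsto (fun n => α (g (φ n)) (f v)) atTop (𝓝 (f ⟨p, hpB'⟩)) := by
      intro v hv
      have h1 := hpq (fun _ => (v : V)) v ⟨v.2.1, v.2.2.2⟩ hv tendsto_const_nhds
      have h2 : Tendsto (fun n => (⟨pa τ ρ (g (φ n)) v, hpB _ v v.2⟩ : Bd C τ)) atTop
          (𝓝 ⟨p, hpB'⟩) := tendsto_subtype_rng.2 h1
      have h3 := (hf.tendsto _).comp h2
      refine h3.congr fun n => ?_
      exact hfe' _ _
    -- `f p = b`
    have hfb : f ⟨p, hpB'⟩ = b := by
      obtain ⟨x', hx', hx''⟩ : ∃ x', x' ≠ x ∧ x' ≠ f ⟨q, hqB⟩ := by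
        obtain ⟨x', hx'⟩ := (Set.infinite_univ.sdiff (Set.toFinite {x, f ⟨q, hqB⟩})).nonempty
        exact ⟨x', fun h1 => hx'.2 (by simp [h1]), fun h1 => hx'.2 (by simp [h1])⟩
      obtain ⟨v, rfl⟩ := hsurj x'
      have h1 := hfp v (fun h2 => hx'' (congrArg f (Subtype.ext h2)))
      have h2 : Tendsto (fun n => α (g (φ n)) (f v)) atTop (𝓝 b) :=
        (hconv.tendsto hx').comp hφ.tendsto_atTop
      exact tendsto_nhds_unique h1 h2
    refine ⟨q, fun v hv => ?_⟩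
    by_contra hne'
    have h1 := hfp v hne'
    rw [hv, hfb] at h1
    exact hab (tendsto_nhds_unique (hga.comp hφ.tendsto_atTop) h1)
  intro v v' hvv
  obtain ⟨q, hq⟩ := key (f v)
  exact Subtype.ext ((hq v rfl).trans (hq v' hvv.symm).symm)

end Asm

end Pool.Agent.H72.Dj
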