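import Pool.Agent.H72.Dj.T10

/-!
# Hyperbolic space
-/

set_option autoImplicit false

open Filter Topology Set Metric Pool.Agent.TH289.C

namespace Pool.Agent.H72.Dj

section Hyp

variable {G : Type} [Group G] {E : Type} [NormedAddCommGroup E] [InnerProductSpace ℝ E]
variable {α : G →* (Sph E ≃ₜ Sph E)} {ρ : G →* ((ℝ × E) ≃L[ℝ] (ℝ × E))}

theorem qf_smul (c : ℝ) (v : ℝ × E) : qf (c • v) = c ^ 2 * qf v := by
  unfold qf
  simp only [Prod.smul_fst, Prod.smul_snd, smul_eq_mul]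
  rw [norm_smul, Real.norm_eq_abs, mul_pow, mul_pow, sq_abs]
  ring

theorem hyp_lattice (hρ : ∀ g, IsIso (ρ g))
    (hd : Divides (Lc E) (ContinuousLinearMap.fst ℝ ℝ E) ρ) :
    (∀ K ⊆ Hyp E, IsCompact K → {g : G | ∃ v ∈ K, ρ g v ∈ K}.Finite) ∧
    (∃ K ⊆ Hyp E, IsCompact K ∧ ∀ v ∈ Hyp E, ∃ g, ρ g v ∈ K) := by
  set τ := ContinuousLinearMap.fst ℝ ℝ E with hτ
  have hS : IsStrictCone (Lc E) τ := isStrictCone_Lc
  have hpres : ∀ g, ∀ v ∈ Lc E, ρ g v ∈ Lc E := fun g v hv => isIso_pres (hρ g) hv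
  obtain ⟨h1, K, hKD, hKc, hK⟩ := hd
  have hHL : ∀ v ∈ Hyp E, v ∈ Lc E := fun v hv => mem_Lc_iff.2 ⟨by rw [hv.1]; exact one_pos, hv.2⟩
  have hposH : ∀ v ∈ Lc E, 0 < τ v := fun v hv => (mem_Lc_iff.1 hv).2
  refine ⟨?_, ?_⟩
  · intro K hK hKc
    have hc : ContinuousOn (proj τ) K := fun v hv =>
      (continuousAt_proj (hposH v (hHL v (hK hv))).ne').continuousWithinAt
    refine (h1 (proj τ '' K) ?_ (hKc.image_of_continuousOn hc)).subset ?_
    · rintro _ ⟨v, hv, rfl⟩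
      exact proj_mem_Dom hS (hHL v (hK hv)) (hposH v (hHL v (hK hv)))
    · rintro g ⟨v, hv, hgv⟩
      refine ⟨proj τ v, ⟨v, hv, rfl⟩, ρ g v, hgv, ?_⟩
      exact (pa_proj g (hposH v (hHL v (hK hv)))).symm
  · set nm : ℝ × E → ℝ × E := fun v => (Real.sqrt (qf v))⁻¹ • v with hnm
    have hnmc : ContinuousOn nm K := by
      intro v hv
      have hq : 0 < qf v := (mem_Lc_iff.1 (hKD hv).1).1
      have hqc : Continuous (qf : ℝ × E → ℝ) := by
        unfold qf; fun_prop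
      have : ContinuousAt (fun v : ℝ × E => (Real.sqrt (qf v))⁻¹) v :=
        ((Real.continuous_sqrt.comp hqc).continuousAt).inv₀ (Real.sqrt_pos.2 hq).ne'
      exact (this.smul continuousAt_id).continuousWithinAt
    refine ⟨nm '' K, ?_, hKc.image_of_continuousOn hnmc, ?_⟩
    · rintro _ ⟨v, hv, rfl⟩
      have hq := (mem_Lc_iff.1 (hKD hv).1)
      have hs := Real.sqrt_pos.2 hq.1
      refine ⟨?_, ?_⟩
      · rw [hnm]
        simp only
        rw [qf_smul, inv_pow, Real.sq_sqrt hq.1.le, inv_mul_cancel₀ hq.1.ne']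
      · simp only [hnm, Prod.smul_fst, smul_eq_mul]
        exact mul_pos (inv_pos.2 hs) hq.2
    · intro v hv
      have hvL := hHL v hv
      have hp := hposH v hvL
      obtain ⟨g, hg⟩ := hK (proj τ v) (proj_mem_Dom hS hvL hp)
      rw [pa_proj g hp] at hg
      refine ⟨g, proj τ (ρ g v), hg, ?_⟩
      have hw : ρ g v ∈ Lc E := hpres g v hvL
      have hwp := hposH _ hw
      have hq1 : qf (ρ g v) = 1 := by rw [(hρ g).1, hv.1]
      have hq2 : qf (proj τ (ρ g v)) = ((τ (ρ g v))⁻¹) ^ 2 := by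
        unfold proj
        rw [qf_smul, hq1, mul_one]
      rw [hnm]
      simp only
      rw [hq2, Real.sqrt_sq (inv_pos.2 hwp).le, inv_inv, proj, smul_smul, mul_inv_cancel₀ hwp.ne',
        one_smul]

theorem light_bd (y : Sph E) :
    ((1 : ℝ), (y : E)) ∈ Bd (Lc E) (ContinuousLinearMap.fst ℝ ℝ E) := Bd_Lc.2 ⟨rfl, norm_coe _⟩

theorem light_move (hρ : ∀ g, IsIso (ρ g)) (g : G) (y : Sph E) :
    ∃ (y' : Sph E) (c : ℝ), 0 < c ∧ ρ g (1, (y : E)) = c • (1, (y' : E)) ∧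
      pa (ContinuousLinearMap.fst ℝ ℝ E) ρ g (1, (y : E)) = (1, (y' : E)) := by
  set τ := ContinuousLinearMap.fst ℝ ℝ E with hτ
  have hS : IsStrictCone (Lc E) τ := isStrictCone_Lc
  have hpres : ∀ g, ∀ v ∈ Lc E, ρ g v ∈ Lc E := fun g v hv => isIso_pres (hρ g) hv
  have hv := light_bd (E := E) y
  have hvK : ((1 : ℝ), (y : E)) ∈ Kbar (Lc E) τ := ⟨hv.1, hv.2.2⟩
  have h1 := pa_kbar (ρ := ρ) hS hpres g hvK
  have h2 : pa τ ρ g (1, (y : E)) ∈ Bd (Lc E) τ := by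
    refine ⟨h1.1, fun h2 => hv.2.1 ?_, h1.2⟩
    have h3 := pa_dom (ρ := ρ) hS hpres g⁻¹ (v := pa τ ρ g (1, (y : E))) ⟨h2, h1.2⟩
    rw [pa_inv hS hpres g hvK] at h3
    exact h3.1
  have hpos : 0 < τ (ρ g (1, (y : E))) := pos_kbar hS hpres g hvK
  obtain ⟨h3, h4⟩ := Bd_Lc.1 h2
  refine ⟨⟨(pa τ ρ g (1, (y : E))).2, by simpa using h4⟩, τ (ρ g (1, (y : E))), hpos, ?_, ?_⟩
  · have e : ((1 : ℝ), (pa τ ρ g (1, (y : E))).2) = pa τ ρ g (1, (y : E)) := Prod.ext h3.symm rfl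
    simp only
    rw [e]
    change ρ g (1, (y : E)) = τ (ρ g (1, (y : E))) • proj τ (ρ g (1, (y : E)))
    rw [proj, smul_smul, mul_inv_cancel₀ hpos.ne', one_smul]
  · exact Prod.ext h3 rfl

theorem hyp_dich [FiniteDimensional ℝ E] (hE : 2 ≤ Module.finrank ℝ E)
    (hα : IsConvergenceAction α) (hmin : ∀ x, Dense (range fun g => α g x))
    (hco : CocompactOnTriples α) (hρ : ∀ g, IsIso (ρ g)) :
    ((∀ K ⊆ Hyp E, IsCompact K → {g : G | ∃ v ∈ K, ρ g v ∈ K}.Finite) ∧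
      (∃ K ⊆ Hyp E, IsCompact K ∧ ∀ v ∈ Hyp E, ∃ g, ρ g v ∈ K)) ∨
    ∀ R : Set (Sph E × Sph E), IsClosed R → (∀ g x (y y' : Sph E) (c : ℝ), 0 < c →
      ρ g (1, (y : E)) = c • (1, (y' : E)) → (x, y) ∈ R → (α g x, y') ∈ R) →
      ∀ x x' y, (x, y) ∈ R → (x', y) ∈ R := by
  have hcS : CompactSpace (Sph E) := compactSpace_sph
  have hpres : ∀ g, ∀ v ∈ Lc E, ρ g v ∈ Lc E := fun g v hv => isIso_pres (hρ g) hv
  have hfr : Module.finrank ℝ (ℝ × E) = Module.finrank ℝ E + 1 := by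
    rw [Module.finrank_prod, Module.finrank_self]; omega
  rcases dichotomy (ρ := ρ) hE hfr.le hα hmin hco (isStrictCone_Lc (E := E)) (by simp [Lc]) hpres with
    h1 | h1
  · exact Or.inl (hyp_lattice hρ h1)
  right
  intro R hR hinv
  have hlc : Continuous fun y : Sph E => ((1 : ℝ), (y : E)) :=
    continuous_const.prodMk continuous_subtype_val
  have hc : Continuous fun p : Sph E × Sph E => (p.1, ((1 : ℝ), (p.2 : E))) :=
    continuous_fst.prodMk (hlc.comp continuous_snd)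
  have hR' : IsClosed ((fun p : Sph E × Sph E => (p.1, ((1 : ℝ), (p.2 : E)))) '' R) :=
    (hR.isCompact.image hc).isClosed
  have h2 := h1 _ hR' (by
    rintro x v ⟨⟨x', y⟩, -, hxv⟩
    have e2 : ((1 : ℝ), (y : E)) = v := congrArg Prod.snd hxv
    rw [← e2]
    exact ⟨(light_bd y).1, (light_bd y).2.2⟩) (by
    rintro g x v ⟨⟨x', y⟩, hxy, hxv⟩
    have e1 : x' = x := congrArg Prod.fst hxv
    have e2 : ((1 : ℝ), (y : E)) = v := congrArg Prod.snd hxv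
    obtain ⟨y', c, hc, h2, h3⟩ := light_move hρ g y
    refine ⟨(α g x, y'), hinv g x y y' c hc h2 (e1 ▸ hxy), ?_⟩
    refine Prod.ext rfl ?_
    change ((1 : ℝ), (y' : E)) = pa (ContinuousLinearMap.fst ℝ ℝ E) ρ g v
    rw [← e2, h3])
  intro x x' y hxy
  obtain ⟨⟨x₁, y₁⟩, h4, h5⟩ := h2 x x' _ ⟨(x, y), hxy, rfl⟩
  have e1 : x₁ = x' := congrArg Prod.fst h5
  have e3 : ((1 : ℝ), (y₁ : E)) = (1, (y : E)) := congrArg Prod.snd h5
  have e2 : y₁ = y := Subtype.ext (congrArg Prod.snd e3)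
  rw [e1, e2] at h4
  exact h4

theorem hyp_map [FiniteDimensional ℝ E] (hE : 2 ≤ Module.finrank ℝ E)
    (hα : IsConvergenceAction α) (hmin : ∀ x, Dense (range fun g => α g x))
    (hco : CocompactOnTriples α) (hρ : ∀ g, IsIso (ρ g)) (f : Sph E → Sph E)
    (hfe : ∀ g x, ∃ c : ℝ, 0 < c ∧ ρ g (1, (f x : E)) = c • (1, (f (α g x) : E)))
    {z : Sph E} (hz : ContinuousAt f z) (hne : ∃ x y, f x ≠ f y) :
    (∀ K ⊆ Hyp E, IsCompact K → {g : G | ∃ v ∈ K, ρ g v ∈ K}.Finite) ∧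
      (∃ K ⊆ Hyp E, IsCompact K ∧ ∀ v ∈ Hyp E, ∃ g, ρ g v ∈ K) := by
  have hpres : ∀ g, ∀ v ∈ Lc E, ρ g v ∈ Lc E := fun g v hv => isIso_pres (hρ g) hv
  have hfr : Module.finrank ℝ (ℝ × E) = Module.finrank ℝ E + 1 := by
    rw [Module.finrank_prod, Module.finrank_self]; omega
  obtain ⟨x, y, hxy⟩ := hne
  refine hyp_lattice hρ (divides_of_map (f := fun x => ((1 : ℝ), (f x : E))) (z := z) hE hfr.le hα
    hmin hco (isStrictCone_Lc (E := E)) (by simp [Lc]) hpres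
    (fun x => ⟨(light_bd _).1, (light_bd _).2.2⟩) ?_ ?_ ⟨x, y, fun h1 => hxy ?_⟩)
  · intro g x
    obtain ⟨c, hc, h1⟩ := hfe g x
    unfold pa
    rw [h1, proj_smul hc.ne', proj_of_one (light_bd _).2.2]
  · have hlc : Continuous fun y : Sph E => ((1 : ℝ), (y : E)) :=
      continuous_const.prodMk continuous_subtype_val
    exact ContinuousAt.comp (g := fun y : Sph E => ((1 : ℝ), (y : E))) (f := f)
      hlc.continuousAt hz
  · exact Subtype.ext (congrArg Prod.snd h1)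

end Hyp

end Pool.Agent.H72.Dj
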