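import Pool.Agent.H72.Dj.T11

/-!
# Maps defined on an invariant subset
-/

set_option autoImplicit false

open Filter Topology Set Metric Pool.Agent.TH289.C

namespace Pool.Agent.H72.Dj

variable {V : Type} [NormedAddCommGroup V] [NormedSpace ℝ V] {G : Type} [Group G]
variable {C : Set V} {τ : V →L[ℝ] ℝ} {ρ : G →* (V ≃L[ℝ] V)}

/-- Equivariant maps to the closed domain, defined on an invariant subset `D` and continuous at one
point of `D`, are constant if all closed invariant sets are products. -/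
theorem const_on_cone [FiniteDimensional ℝ V] {X : Type} [TopologicalSpace X] {α : G →* (X ≃ₜ X)}
    (h : IsStrictCone C τ) (hpres : ∀ g, ∀ v ∈ C, ρ g v ∈ C)
    (h1 : ∀ R : Set (X × V), IsClosed R → (∀ x v, (x, v) ∈ R → v ∈ Kbar C τ) →
      (∀ g x v, (x, v) ∈ R → (α g x, pa τ ρ g v) ∈ R) → ∀ x x' v, (x, v) ∈ R → (x', v) ∈ R)
    {D : Set X} (hD : ∀ g, ∀ x ∈ D, α g x ∈ D) {f : X → V}
    (hfK : ∀ x ∈ D, f x ∈ Kbar C τ) (hfe : ∀ g, ∀ x ∈ D, f (α g x) = pa τ ρ g (f x))
    {z : X} (hzD : z ∈ D) (hz : ContinuousWithinAt f D z) {x : X} (hxD : x ∈ D) : f x = f z := by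
  set Γ : Set (X × V) := (fun x => (x, f x)) '' D with hΓ
  have hK : IsClosed {p : X × V | p.2 ∈ Kbar C τ} := isClosed_Kbar.preimage continuous_snd
  have hRK : ∀ x v, (x, v) ∈ closure Γ → v ∈ Kbar C τ := by
    intro x v hxv
    exact (closure_minimal (by rintro _ ⟨x, hx, rfl⟩; exact hfK x hx) hK) hxv
  have hinv : ∀ g x v, (x, v) ∈ closure Γ → (α g x, pa τ ρ g v) ∈ closure Γ := by
    intro g x v hxv
    have hc : ContinuousAt (fun p : X × V => (α g p.1, pa τ ρ g p.2)) (x, v) := by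
      refine ContinuousAt.prodMk ?_ ?_
      · exact ((α g).continuous.comp continuous_fst).continuousAt
      · exact ContinuousAt.comp (g := pa τ ρ g) (f := Prod.snd)
          (continuousAt_pa h hpres g (hRK x v hxv)) continuous_snd.continuousAt
    have h2 := mem_closure_image hc hxv
    refine closure_mono ?_ h2
    rintro _ ⟨_, ⟨y, hy, rfl⟩, rfl⟩
    exact ⟨α g y, hD g y hy, by simp only [hfe g y hy]⟩
  have h2 := h1 (closure Γ) isClosed_closure hRK hinv
  have h3 : ∀ v, (z, v) ∈ closure Γ → v = f z := by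
    intro v hv
    by_contra hne'
    obtain ⟨U, W, hU, hW, hUW⟩ := t2_separation_nhds hne'
    have h4 : f ⁻¹' W ∈ 𝓝[D] z := hz hW
    obtain ⟨W', hW', hWD⟩ := mem_nhdsWithin_iff_exists_mem_nhds_inter.1 h4
    obtain ⟨⟨y, w⟩, ⟨hy1, hy2⟩, ⟨y', hyD, hy'⟩⟩ :=
      mem_closure_iff_nhds.1 hv _ (prod_mem_nhds hW' hU)
    have e1 : y' = y := congrArg Prod.fst hy'
    have e2 : f y' = w := congrArg Prod.snd hy'
    simp only at hy1 hy2
    rw [← e2] at hy2
    rw [← e1] at hy1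
    exact Set.disjoint_left.1 hUW hy2 (hWD ⟨hy1, hyD⟩)
  exact h3 _ (h2 x z (f x) (subset_closure ⟨x, hxD, rfl⟩))

end Pool.Agent.H72.Dj
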