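import Pool.Agent.H72.Dj.T1

/-!
# The topological lemma

The quotient of the ball by the boundary does not factor, up to homotopy, through a compact subset
of a euclidean space of the same dimension.
-/

set_option autoImplicit false

open Filter Topology Set Metric

namespace Pool.Agent.H72.Dj

variable {E : Type} [NormedAddCommGroup E] [InnerProductSpace ℝ E] [FiniteDimensional ℝ E]
variable {W : Type} [NormedAddCommGroup W] [NormedSpace ℝ W] [FiniteDimensional ℝ W]

theorem topo [Nontrivial E] (hdim : Module.finrank ℝ W ≤ Module.finrank ℝ E) (j : E → W) (Θ : E → E)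
    (hj : ContinuousOn j (closedBall 0 1)) (hΘ : ContinuousOn Θ (closedBall 0 1))
    (hΘ1 : ∀ p ∈ closedBall (0 : E) 1, ‖Θ p‖ ≤ 1) (hΘs : ∀ p, ‖p‖ = 1 → Θ p = p)
    (hjs : ∀ p, ‖p‖ = 1 → j p = 0)
    (hcomp : ∀ p ∈ closedBall (0 : E) 1, ∀ p' ∈ closedBall (0 : E) 1, j p = j p' →
      Θ p = Θ p' ∨ (‖Θ p‖ = 1 ∧ ‖Θ p'‖ = 1)) : False := by
  classical
  have : ProperSpace E := FiniteDimensional.proper ℝ E
  let B : Set E := closedBall (0 : E) 1
  have hBc : CompactSpace B := isCompact_iff_compactSpace.1 (isCompact_closedBall 0 1)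
  have hjB : Continuous fun p : B => j p := continuousOn_iff_continuous_domRestrict.1 hj
  have hΘB : Continuous fun p : B => Θ p := continuousOn_iff_continuous_domRestrict.1 hΘ
  -- the first factorization
  obtain ⟨f₀, hf₀, hf₀'⟩ := factor (fun p : B => j p) hjB (fun p : B => q (Θ p))
    (continuous_q.comp hΘB) (by
      intro x y hxy
      rcases hcomp x x.2 y y.2 hxy with h | h
      · simp only [h]
      · exact q_eq_of h.1 h.2)
  have hfr : Module.finrank ℝ (WithLp 2 (E × ℝ)) = Module.finrank ℝ E + 1 := by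
    rw [LinearEquiv.finrank_eq (WithLp.linearEquiv 2 ℝ (E × ℝ)), Module.finrank_prod,
      Module.finrank_self]
  have hJ : IsClosed (range fun p : B => j p) := (isCompact_range hjB).isClosed
  obtain ⟨g, hg, hg1, hgf⟩ := extend_sphere (F := WithLp 2 (E × ℝ)) (by rw [hfr]; omega) hJ f₀ hf₀
    (by
      rintro ⟨_, ⟨p, rfl⟩⟩
      rw [hf₀']
      exact norm_q (hΘ1 p p.2))
  have hgj : ∀ p : B, g (j p) = q (Θ p) := fun p => by
    rw [← hf₀' p]
    exact hgf ⟨j p, mem_range_self p⟩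
  -- the map of the cone
  let R : B × Icc (0 : ℝ) 1 → WithLp 2 (E × ℝ) := fun x =>
    if (1 : ℝ) / 2 ≤ x.2 then q ((2 - 2 * (x.2 : ℝ)) • Θ x.1 + (2 * (x.2 : ℝ) - 1) • (x.1 : E))
    else g ((2 * (x.2 : ℝ)) • j x.1)
  have hRc : Continuous R := by
    refine Continuous.if_le ?_ ?_ continuous_const (by fun_prop) ?_
    · refine continuous_q.comp ?_
      have h1 : Continuous fun x : B × Icc (0 : ℝ) 1 => Θ x.1 := hΘB.comp continuous_fst
      have h2 : Continuous fun x : B × Icc (0 : ℝ) 1 => (x.2 : ℝ) := by fun_prop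
      have h3 : Continuous fun x : B × Icc (0 : ℝ) 1 => (x.1 : E) := by fun_prop
      exact ((continuous_const.sub (continuous_const.mul h2)).smul h1).add
        (((continuous_const.mul h2).sub continuous_const).smul h3)
    · refine hg.comp ?_
      have h1 : Continuous fun x : B × Icc (0 : ℝ) 1 => j x.1 := hjB.comp continuous_fst
      have h2 : Continuous fun x : B × Icc (0 : ℝ) 1 => (x.2 : ℝ) := by fun_prop
      exact (continuous_const.mul h2).smul h1
    · intro x hx
      rw [← hx]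
      have e1 : (2 - 2 * ((1 : ℝ) / 2)) • Θ x.1 + (2 * ((1 : ℝ) / 2) - 1) • (x.1 : E) = Θ x.1 := by
        norm_num
      have e2 : (2 * ((1 : ℝ) / 2)) • j x.1 = j x.1 := by norm_num
      rw [e1, e2, hgj]
  have hR1 : ∀ x, ‖R x‖ = 1 := by
    intro x
    by_cases hx : (1 : ℝ) / 2 ≤ x.2
    · simp only [R, if_pos hx]
      apply norm_q
      have h2 : (x.2 : ℝ) ≤ 1 := x.2.2.2
      have h3 : ‖(x.1 : E)‖ ≤ 1 := mem_closedBall_zero_iff.1 x.1.2
      calc ‖(2 - 2 * (x.2 : ℝ)) • Θ x.1 + (2 * (x.2 : ℝ) - 1) • (x.1 : E)‖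
          ≤ ‖(2 - 2 * (x.2 : ℝ)) • Θ x.1‖ + ‖(2 * (x.2 : ℝ) - 1) • (x.1 : E)‖ := norm_add_le _ _
        _ = (2 - 2 * (x.2 : ℝ)) * ‖Θ x.1‖ + (2 * (x.2 : ℝ) - 1) * ‖(x.1 : E)‖ := by
            rw [norm_smul, norm_smul, Real.norm_of_nonneg (by linarith),
              Real.norm_of_nonneg (by linarith)]
        _ ≤ (2 - 2 * (x.2 : ℝ)) * 1 + (2 * (x.2 : ℝ) - 1) * 1 := by
            gcongr
            · linarith
            · exact hΘ1 _ x.1.2
            · linarith
        _ = 1 := by ring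
    · simp only [R, if_neg hx]
      exact hg1 _
  obtain ⟨e₀, he₀⟩ := exists_norm_eq E (zero_le_one (α := ℝ))
  have he₀B : e₀ ∈ B := by simp [B, he₀]
  set N : WithLp 2 (E × ℝ) := q e₀ with hN
  have hg0 : g 0 = N := by
    have := hgj ⟨e₀, he₀B⟩
    simp only at this
    rw [hjs _ he₀, hΘs _ he₀] at this
    exact this
  have hRs : ∀ x : B × Icc (0 : ℝ) 1, ‖(x.1 : E)‖ = 1 → R x = N := by
    intro x hx1
    by_cases hx : (1 : ℝ) / 2 ≤ x.2
    · simp only [R, if_pos hx]
      rw [hΘs _ hx1, ← add_smul]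
      have : (2 - 2 * (x.2 : ℝ)) + (2 * (x.2 : ℝ) - 1) = 1 := by ring
      rw [this, one_smul]
      exact q_eq_of hx1 he₀
    · simp only [R, if_neg hx]
      rw [hjs _ hx1, smul_zero, hg0]
  have hR0 : ∀ x : B × Icc (0 : ℝ) 1, (x.2 : ℝ) = 0 → R x = N := by
    intro x hx0
    have hx : ¬ (1 : ℝ) / 2 ≤ x.2 := by rw [hx0]; norm_num
    simp only [R, if_neg hx]
    rw [hx0, mul_zero, zero_smul, hg0]
  -- the second factorization
  let P : B × Icc (0 : ℝ) 1 → WithLp 2 (E × ℝ) := fun x => (x.2 : ℝ) • q (x.1 : E)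
  have hPc : Continuous P := by
    have := continuous_q (E := E)
    fun_prop
  have hPn : ∀ x, ‖P x‖ = x.2 := by
    intro x
    have h3 : ‖(x.1 : E)‖ ≤ 1 := mem_closedBall_zero_iff.1 x.1.2
    simp only [P]
    rw [norm_smul, norm_q h3, Real.norm_of_nonneg x.2.2.1, mul_one]
  obtain ⟨r₀, hr₀, hr₀'⟩ := factor P hPc R hRc (by
    intro x y hxy
    have h2 : (x.2 : ℝ) = y.2 := by rw [← hPn x, ← hPn y, hxy]
    by_cases h0 : (x.2 : ℝ) = 0
    · rw [hR0 x h0, hR0 y (h2 ▸ h0)]
    · have h3 : q (x.1 : E) = q (y.1 : E) := by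
        have h4 : (x.2 : ℝ) • q (x.1 : E) = (x.2 : ℝ) • q (y.1 : E) := by
          have : P x = P y := hxy
          simp only [P] at this
          rw [this, h2]
        exact smul_right_injective _ h0 h4
      rcases q_eq (mem_closedBall_zero_iff.1 x.1.2) h3 with h5 | ⟨h5, h6⟩
      · have : x = y := Prod.ext (Subtype.ext h5) (Subtype.ext h2)
        rw [this]
      · rw [hRs x h5, hRs y h6])
  -- the range of `P` is the ball
  have hrange : closedBall (0 : WithLp 2 (E × ℝ)) 1 ⊆ range P := by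
    intro w hw
    have hw1 : ‖w‖ ≤ 1 := by simpa using hw
    by_cases hw0 : w = 0
    · refine ⟨(⟨e₀, he₀B⟩, ⟨0, by norm_num, by norm_num⟩), ?_⟩
      simp [P, hw0]
    · have hn : 0 < ‖w‖ := norm_pos_iff.2 hw0
      obtain ⟨b, hb, hbq⟩ := exists_q (E := E) (w := ‖w‖⁻¹ • w) (by
        rw [norm_smul, norm_inv, norm_norm, inv_mul_cancel₀ hn.ne'])
      refine ⟨(⟨b, by simpa [B] using hb⟩, ⟨‖w‖, hn.le, hw1⟩), ?_⟩
      simp only [P]
      rw [hbq, smul_smul, mul_inv_cancel₀ hn.ne', one_smul]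
  have : FiniteDimensional ℝ (WithLp 2 (E × ℝ)) :=
    Module.finite_of_finrank_pos (by rw [hfr]; omega)
  let r : WithLp 2 (E × ℝ) → WithLp 2 (E × ℝ) := fun w =>
    if h : w ∈ range P then r₀ ⟨w, h⟩ else 0
  refine no_retraction r ?_ ?_ ?_
  · rw [continuousOn_iff_continuous_domRestrict]
    have h1 : (closedBall (0 : WithLp 2 (E × ℝ)) 1).domRestrict r =
        fun w => r₀ ⟨w.1, hrange w.2⟩ := by
      funext w
      change r w = _
      simp only [r]
      rw [dif_pos (hrange w.2)]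
    rw [h1]
    exact hr₀.comp (continuous_subtype_val.subtype_mk _)
  · intro w hw
    obtain ⟨x, hx⟩ := hrange hw
    simp only [r]
    rw [dif_pos (hrange hw)]
    have : (⟨w, hrange hw⟩ : range P) = ⟨P x, mem_range_self x⟩ := Subtype.ext hx.symm
    rw [this, hr₀', hR1]
  · intro w hw
    obtain ⟨b, hb, hbq⟩ := exists_q (E := E) hw
    let x : B × Icc (0 : ℝ) 1 := (⟨b, by simpa [B] using hb⟩, ⟨1, by norm_num, by norm_num⟩)
    have hx : P x = w := by simp [P, x, hbq]
    have hw' : w ∈ range P := ⟨x, hx⟩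
    simp only [r]
    rw [dif_pos hw']
    have : (⟨w, hw'⟩ : range P) = ⟨P x, mem_range_self x⟩ := Subtype.ext hx.symm
    rw [this, hr₀']
    simp only [R, x]
    rw [if_pos (by norm_num)]
    norm_num
    exact hbq

end Pool.Agent.H72.Dj
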