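import Pool.Agent.H72.Dj.T2
import Pool.Graph.R_seed8.TH289.C.C7

/-!
# Proper actions on a convex domain: coarse inverse of the barycentre map
-/

set_option autoImplicit false

open Filter Topology Set Metric Pool.Agent.TH289.C

namespace Pool.Agent.H72.Dj

section Conv

variable {G : Type} [Group G] {X : Type} [MetricSpace X]

/-- The sequence `g` converges to `a` off `b`. -/
def Conv (α : G →* (X ≃ₜ X)) (g : ℕ → G) (a b : X) : Prop :=
  ∀ U ∈ 𝓝 a, ∀ W ∈ 𝓝 b, ∀ᶠ n in atTop, ∀ x, x ∉ W → α (g n) x ∈ U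

variable {α : G →* (X ≃ₜ X)} {g : ℕ → G} {a b : X}

theorem Conv.comp (h : Conv α g a b) {φ : ℕ → ℕ} (hφ : Tendsto φ atTop atTop) :
    Conv α (g ∘ φ) a b := fun U hU W hW => hφ.eventually (h U hU W hW)

theorem Conv.congr {g' : ℕ → G} (h : Conv α g a b) (hg : ∀ n, g' n = g n) : Conv α g' a b := by
  have : g' = g := funext hg
  rwa [this]

theorem map_mul_apply (α : G →* (X ≃ₜ X)) (g h : G) (x : X) : α (g * h) x = α g (α h x) := by
  rw [map_mul]; rfl

theorem map_inv_apply (α : G →* (X ≃ₜ X)) (g : G) (x : X) : α g⁻¹ (α g x) = x := by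
  rw [← map_mul_apply, inv_mul_cancel, map_one]; rfl

theorem map_inv_apply' (α : G →* (X ≃ₜ X)) (g : G) (x : X) : α g (α g⁻¹ x) = x := by
  rw [← map_mul_apply, mul_inv_cancel, map_one]; rfl

theorem Conv.mul_right (h : Conv α g a b) (s : G) :
    Conv α (fun n => g n * s) a (α s⁻¹ b) := by
  intro U hU W hW
  have hW' : (α s⁻¹) ⁻¹' W ∈ 𝓝 b := (α s⁻¹).continuous.continuousAt hW
  filter_upwards [h U hU _ hW'] with n hn x hx
  rw [map_mul_apply]
  refine hn _ fun h1 => hx ?_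
  have h2 : α s⁻¹ (α s x) ∈ W := h1
  rwa [map_inv_apply] at h2

theorem Conv.mul_left (h : Conv α g a b) (s : G) :
    Conv α (fun n => s * g n) (α s a) b := by
  intro U hU W hW
  have hU' : (α s) ⁻¹' U ∈ 𝓝 a := (α s).continuous.continuousAt hU
  filter_upwards [h _ hU' W hW] with n hn x hx
  rw [map_mul_apply]
  exact hn x hx

theorem Conv.tendsto (h : Conv α g a b) {x : X} (hx : x ≠ b) :
    Tendsto (fun n => α (g n) x) atTop (𝓝 a) := by
  intro U hU
  rw [Filter.mem_map]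
  filter_upwards [h U hU {x}ᶜ (isOpen_compl_singleton.mem_nhds (by simpa using hx.symm))] with n hn
  exact hn x (by simp)

theorem Conv.tendsto' (h : Conv α g a b) {x : ℕ → X} {x₀ : X} (hx : Tendsto x atTop (𝓝 x₀))
    (hne : x₀ ≠ b) : Tendsto (fun n => α (g n) (x n)) atTop (𝓝 a) := by
  intro U hU
  obtain ⟨V, W, hV, hW, hVW⟩ := t2_separation_nhds hne
  have h2 : ∀ᶠ n in atTop, x n ∈ V := hx hV
  rw [Filter.mem_map]
  filter_upwards [h U hU W hW, h2] with n hn hn2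
  exact hn _ fun h1 => Set.disjoint_left.1 hVW hn2 h1

/-- A convergent sequence of group elements leaves all finite sets. -/
theorem Conv.ne (h : Conv α g a b) {x y : X} (hxy : x ≠ y) (hx : x ≠ b) (hy : y ≠ b) (s : G) :
    ∀ᶠ n in atTop, g n ≠ s := by
  have h1 := h.tendsto hx
  have h2 := h.tendsto hy
  have hne : ¬ (α s x = a ∧ α s y = a) := fun h0 => hxy ((α s).injective (h0.1.trans h0.2.symm))
  rw [not_and_or] at hne
  rcases hne with h0 | h0
  · filter_upwards [h1 (isOpen_compl_singleton.mem_nhds (show a ∈ ({α s x}ᶜ : Set X) by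
      simpa using fun h3 => h0 h3.symm))] with n hn heq
    exact hn (by change α (g n) x = α s x; rw [heq])
  · filter_upwards [h2 (isOpen_compl_singleton.mem_nhds (show a ∈ ({α s y}ᶜ : Set X) by
      simpa using fun h3 => h0 h3.symm))] with n hn heq
    exact hn (by change α (g n) y = α s y; rw [heq])

omit [MetricSpace X] in
theorem two_of_three {z : Fin 3 → X} (hz : ∀ i j, i ≠ j → z i ≠ z j) (b : X) :
    ∃ i j : Fin 3, i ≠ j ∧ z i ≠ b ∧ z j ≠ b := by
  have hzz : ∀ i j, i ≠ j → z i = b → z j ≠ b := by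
    intro i j hij h1 h2
    exact hz i j hij (by rw [h1, h2])
  by_cases h0 : z 0 = b
  · exact ⟨1, 2, by decide, hzz 0 1 (by decide) h0, hzz 0 2 (by decide) h0⟩
  · by_cases h1 : z 1 = b
    · exact ⟨0, 2, by decide, h0, hzz 1 2 (by decide) h1⟩
    · exact ⟨0, 1, by decide, h0, h1⟩

theorem Conv.cofinite (h : Conv α g a b) {z : Fin 3 → X} (hz : ∀ i j, i ≠ j → z i ≠ z j) :
    Tendsto g atTop cofinite := by
  obtain ⟨i, j, hij, hi, hj⟩ := two_of_three hz b
  exact tendsto_cofinite_of_ne fun s => h.ne (hz i j hij) hi hj s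

/-- A point of the closest pair of a triple. -/
noncomputable def cp (t : Fin 3 → X) : X :=
  open Classical in
  if dist (t 0) (t 1) = sep t then t 0 else if dist (t 1) (t 2) = sep t then t 1 else t 2

theorem cp_spec (t : Fin 3 → X) : ∃ k l, k ≠ l ∧ dist (t k) (t l) = sep t ∧ cp t = t k := by
  classical
  by_cases h1 : dist (t 0) (t 1) = sep t
  · exact ⟨0, 1, by decide, h1, by simp [cp, h1]⟩
  · by_cases h2 : dist (t 1) (t 2) = sep t
    · exact ⟨1, 2, by decide, h2, by simp [cp, h1, h2]⟩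
    · refine ⟨2, 0, by decide, ?_, by simp [cp, h1, h2]⟩
      rw [dist_comm]
      have h3 : sep t = min (dist (t 0) (t 1)) (min (dist (t 1) (t 2)) (dist (t 0) (t 2))) := rfl
      rcases min_choice (dist (t 0) (t 1)) (min (dist (t 1) (t 2)) (dist (t 0) (t 2))) with h | h
      · exact absurd (h3.trans h).symm h1
      · rcases min_choice (dist (t 1) (t 2)) (dist (t 0) (t 2)) with h' | h'
        · exact absurd ((h3.trans h).trans h').symm h2
        · exact ((h3.trans h).trans h').symm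

theorem Conv.cp (h : Conv α g a b) {t : Fin 3 → X} (ht : 0 < sep t) {η : ℝ} (hη : 0 < η) :
    ∀ᶠ n in atTop, dist (Pool.Agent.H72.Dj.cp (act α (g n) t)) a < η := by
  obtain ⟨i, j, hij, hi, hj⟩ := two_outside (t := t) (r := sep t / 2) (by linarith) b
  filter_upwards [h (ball a (η / 3)) (ball_mem_nhds a (by positivity)) (ball b (sep t / 2))
    (ball_mem_nhds b (by positivity))] with n hn
  have h1 : dist (act α (g n) t i) a < η / 3 := hn (t i) (by simpa using hi)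
  have h2 : dist (act α (g n) t j) a < η / 3 := hn (t j) (by simpa using hj)
  obtain ⟨k, l, hkl, h3, h4⟩ := cp_spec (act α (g n) t)
  have h5 := sep_le (act α (g n) t) hij
  have h6 := dist_triangle_right (act α (g n) t i) (act α (g n) t j) a
  rw [h4]
  have h7 := dist_triangle (act α (g n) t k) (act α (g n) t l) a
  rcases common i j k l hij hkl with e | e | e | e
  · rw [← e]; linarith
  · rw [← e] at h3 h7; linarith
  · rw [← e]; linarith
  · rw [← e] at h3 h7; linarith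

end Conv

section Act

variable {V : Type} [NormedAddCommGroup V] [NormedSpace ℝ V] {G : Type} [Group G]
variable {C : Set V} {τ : V →L[ℝ] ℝ} {ρ : G →* (V ≃L[ℝ] V)}

/-- The projective action in the affine chart. -/
noncomputable def pa (τ : V →L[ℝ] ℝ) (ρ : G →* (V ≃L[ℝ] V)) (g : G) (v : V) : V := proj τ (ρ g v)

theorem pres_cl (hpres : ∀ g, ∀ v ∈ C, ρ g v ∈ C) (g : G) {v : V} (hv : v ∈ closure C) :
    ρ g v ∈ closure C := by
  have h1 : MapsTo (fun v : V => ρ g v) C C := fun v hv => hpres g v hv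
  exact h1.closure (ρ g).continuous hv

theorem pos_cl (h : IsStrictCone C τ) (hpres : ∀ g, ∀ v ∈ C, ρ g v ∈ C) (g : G) {v : V}
    (hv : v ∈ closure C) (h0 : v ≠ 0) : 0 < τ (ρ g v) :=
  h.pos _ (pres_cl hpres g hv) (by simpa using h0)

theorem dom_kbar {v : V} (hv : v ∈ Dom C τ) : v ∈ Kbar C τ := ⟨subset_closure hv.1, hv.2⟩

theorem pos_kbar (h : IsStrictCone C τ) (hpres : ∀ g, ∀ v ∈ C, ρ g v ∈ C) (g : G) {v : V}
    (hv : v ∈ Kbar C τ) : 0 < τ (ρ g v) := pos_cl h hpres g hv.1 (ne_zero_of_one hv.2)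

theorem pa_kbar (h : IsStrictCone C τ) (hpres : ∀ g, ∀ v ∈ C, ρ g v ∈ C) (g : G) {v : V}
    (hv : v ∈ Kbar C τ) : pa τ ρ g v ∈ Kbar C τ :=
  proj_mem_Kbar h (pres_cl hpres g hv.1) (pos_kbar h hpres g hv)

theorem pa_dom (h : IsStrictCone C τ) (hpres : ∀ g, ∀ v ∈ C, ρ g v ∈ C) (g : G) {v : V}
    (hv : v ∈ Dom C τ) : pa τ ρ g v ∈ Dom C τ :=
  proj_mem_Dom h (hpres g v hv.1) (pos_kbar h hpres g (dom_kbar hv))

theorem pa_proj (g : G) {v : V} (hv : 0 < τ v) :
    pa τ ρ g (proj τ v) = proj τ (ρ g v) := by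
  unfold pa
  conv_lhs => rw [proj.eq_1 τ v, map_smul, proj_smul (inv_ne_zero hv.ne')]

theorem pa_mul (h : IsStrictCone C τ) (hpres : ∀ g, ∀ v ∈ C, ρ g v ∈ C) (g g' : G) {v : V}
    (hv : v ∈ Kbar C τ) : pa τ ρ (g * g') v = pa τ ρ g (pa τ ρ g' v) := by
  change _ = pa τ ρ g (proj τ (ρ g' v))
  rw [pa_proj g (pos_kbar h hpres g' hv)]
  unfold pa
  rw [rho_mul]

theorem pa_one {v : V} (hv : v ∈ Kbar C τ) : pa τ ρ 1 v = v := by
  unfold pa
  rw [rho_one, proj_of_one hv.2]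

theorem pa_inv (h : IsStrictCone C τ) (hpres : ∀ g, ∀ v ∈ C, ρ g v ∈ C) (g : G) {v : V}
    (hv : v ∈ Kbar C τ) : pa τ ρ g⁻¹ (pa τ ρ g v) = v := by
  rw [← pa_mul h hpres _ _ hv, inv_mul_cancel, pa_one hv]

theorem pa_inv' (h : IsStrictCone C τ) (hpres : ∀ g, ∀ v ∈ C, ρ g v ∈ C) (g : G) {v : V}
    (hv : v ∈ Kbar C τ) : pa τ ρ g (pa τ ρ g⁻¹ v) = v := by
  rw [← pa_mul h hpres _ _ hv, mul_inv_cancel, pa_one hv]

theorem continuousAt_pa (h : IsStrictCone C τ) (hpres : ∀ g, ∀ v ∈ C, ρ g v ∈ C) (g : G) {v : V}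
    (hv : v ∈ Kbar C τ) : ContinuousAt (pa τ ρ g) v :=
  ContinuousAt.comp (g := proj τ) (f := fun v => ρ g v)
    (continuousAt_proj (pos_kbar h hpres g hv).ne') (ρ g).continuous.continuousAt

/-- Properness of the projective action on the domain. -/
def Prop' (C : Set V) (τ : V →L[ℝ] ℝ) (ρ : G →* (V ≃L[ℝ] V)) : Prop :=
  ∀ K ⊆ Dom C τ, IsCompact K → {g : G | ∃ v ∈ K, pa τ ρ g v ∈ K}.Finite

theorem Prop'.two (hp : Prop' C τ ρ) {K L : Set V} (hK : K ⊆ Dom C τ) (hL : L ⊆ Dom C τ)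
    (hKc : IsCompact K) (hLc : IsCompact L) : {g : G | ∃ v ∈ K, pa τ ρ g v ∈ L}.Finite := by
  refine (hp (K ∪ L) (union_subset hK hL) (hKc.union hLc)).subset ?_
  rintro g ⟨v, hv, hgv⟩
  exact ⟨v, Or.inl hv, Or.inr hgv⟩

theorem zero_notMem' [Nontrivial V] (h : IsStrictCone C τ) : (0 : V) ∉ C := by
  intro h0
  obtain ⟨v, hv⟩ := exists_ne (0 : V)
  have h1 : ∀ᶠ s : ℝ in 𝓝 0, s • v ∈ C ∧ (-s) • v ∈ C := by
    have c1 : Tendsto (fun s : ℝ => s • v) (𝓝 0) (𝓝 0) := by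
      have : Continuous fun s : ℝ => s • v := by fun_prop
      simpa using this.tendsto 0
    have c2 : Tendsto (fun s : ℝ => (-s) • v) (𝓝 0) (𝓝 0) := by
      have : Continuous fun s : ℝ => (-s) • v := by fun_prop
      simpa using this.tendsto 0
    exact (c1.eventually (h.isOpen.mem_nhds h0)).and (c2.eventually (h.isOpen.mem_nhds h0))
  obtain ⟨s, hs, hs0⟩ := ((h1.filter_mono nhdsWithin_le_nhds).and
    (self_mem_nhdsWithin (a := (0 : ℝ)) (s := Ioi 0))).exists
  have hs0' : (0 : ℝ) < s := hs0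
  have h2 := h.pos _ (subset_closure hs.1) (smul_ne_zero hs0'.ne' hv)
  have h3 := h.pos _ (subset_closure hs.2) (smul_ne_zero (neg_ne_zero.2 hs0'.ne') hv)
  rw [map_smul, smul_eq_mul] at h2 h3
  linarith

/-- Bump functions on the domain. -/
theorem exists_bump [FiniteDimensional ℝ V] (h : IsStrictCone C τ) {K : Set V} (hK : IsCompact K)
    (hKD : K ⊆ Dom C τ) : ∃ (χ : V → ℝ) (K₂ : Set V), Continuous χ ∧ (∀ v, 0 ≤ χ v) ∧
      (∀ v ∈ K, 0 < χ v) ∧ IsCompact K₂ ∧ K₂ ⊆ Dom C τ ∧ ∀ v, τ v = 1 → 0 < χ v → v ∈ K₂ := by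
  have : ProperSpace V := FiniteDimensional.proper ℝ V
  obtain ⟨L, hL, hKL, hLC⟩ := exists_compact_between hK h.isOpen fun v hv => (hKD hv).1
  obtain ⟨f, hf0, hf1, hf⟩ := exists_continuous_zero_one_of_isClosed
    (s := (interior L)ᶜ) (t := K) isOpen_interior.isClosed_compl hK.isClosed
    (Set.disjoint_left.2 fun v hv hv' => hv (hKL hv'))
  refine ⟨f, L ∩ {v | τ v = 1}, f.continuous, fun v => (hf v).1, fun v hv => ?_,
    hL.inter_right (isClosed_eq τ.continuous continuous_const), fun v hv => ⟨hLC hv.1, hv.2⟩,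
    fun v hv hfv => ⟨?_, hv⟩⟩
  · rw [hf1 hv]; exact one_pos
  · by_contra hvL
    have : v ∈ (interior L)ᶜ := fun h0 => hvL (interior_subset h0)
    rw [hf0 this] at hfv
    exact lt_irrefl _ hfv

end Act

end Pool.Agent.H72.Dj
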