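import Pool.Agent.H72.Dj.T3

/-!
# Proper actions on a convex domain: weights on the domain
-/

set_option autoImplicit false

open Filter Topology Set Metric Pool.Agent.TH289.C

namespace Pool.Agent.H72.Dj

section Xi

variable {V : Type} [NormedAddCommGroup V] [NormedSpace ℝ V] {G : Type} [Group G]
variable {C : Set V} {τ : V →L[ℝ] ℝ} {ρ : G →* (V ≃L[ℝ] V)}
variable {E : Type} [NormedAddCommGroup E] [NormedSpace ℝ E]

/-- The weight of `g` at a point of the domain. -/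
noncomputable def w (τ : V →L[ℝ] ℝ) (ρ : G →* (V ≃L[ℝ] V)) (χ : V → ℝ) (g : G) (v : V) : ℝ :=
  χ (pa τ ρ g⁻¹ v)

/-- The average. -/
noncomputable def Xi (τ : V →L[ℝ] ℝ) (ρ : G →* (V ≃L[ℝ] V)) (χ : V → ℝ) (b : G → E) (v : V) : E :=
  (∑ᶠ g, w τ ρ χ g v)⁻¹ • ∑ᶠ g, w τ ρ χ g v • b g

/-- The properties of the bump function. -/
structure Bump (C : Set V) (τ : V →L[ℝ] ℝ) (χ : V → ℝ) (K₂ : Set V) : Prop where
  cont : Continuous χ
  nonneg : ∀ v, 0 ≤ χ v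
  comp : IsCompact K₂
  dom : K₂ ⊆ Dom C τ
  mem : ∀ v, τ v = 1 → 0 < χ v → v ∈ K₂

variable {χ : V → ℝ} {K₂ : Set V}

theorem locfin [FiniteDimensional ℝ V] (h : IsStrictCone C τ) (hpres : ∀ g, ∀ v ∈ C, ρ g v ∈ C)
    (hp : Prop' C τ ρ) (hχ : Bump C τ χ K₂) {v : V} (hv : v ∈ Dom C τ) :
    ∃ N ∈ 𝓝 v, ∃ F : Finset G, ∀ v' ∈ N, v' ∈ Dom C τ → ∀ g, w τ ρ χ g v' ≠ 0 → g ∈ F := by
  classical
  have : ProperSpace V := FiniteDimensional.proper ℝ V
  obtain ⟨L, hL, hvL, hLC⟩ := exists_compact_between (isCompact_singleton (x := v)) h.isOpen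
    (by simpa using hv.1)
  set L' : Set V := L ∩ {v | τ v = 1} with hL'
  have hL'c : IsCompact L' := hL.inter_right (isClosed_eq τ.continuous continuous_const)
  have hL'D : L' ⊆ Dom C τ := fun v hv => ⟨hLC hv.1, hv.2⟩
  have hfin := hp.two hL'D hχ.dom hL'c hχ.comp
  refine ⟨interior L, isOpen_interior.mem_nhds (hvL rfl), hfin.toFinset.image (fun g => g⁻¹),
    fun v' hv' hvD g hg => ?_⟩
  rw [Finset.mem_image]
  refine ⟨g⁻¹, ?_, inv_inv g⟩
  rw [Finite.mem_toFinset]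
  refine ⟨v', ⟨interior_subset hv', hvD.2⟩, ?_⟩
  exact hχ.mem _ (pa_dom h hpres _ hvD).2 (lt_of_le_of_ne (hχ.nonneg _) (Ne.symm hg))

theorem finite_w [FiniteDimensional ℝ V] (h : IsStrictCone C τ)
    (hpres : ∀ g, ∀ v ∈ C, ρ g v ∈ C)
    (hp : Prop' C τ ρ) (hχ : Bump C τ χ K₂) {v : V} (hv : v ∈ Dom C τ) :
    {g : G | w τ ρ χ g v ≠ 0}.Finite := by
  obtain ⟨N, hN, F, hF⟩ := locfin h hpres hp hχ hv
  exact F.finite_toSet.subset fun g hg => hF v (mem_of_mem_nhds hN) hv g hg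

theorem continuousOn_w (h : IsStrictCone C τ) (hpres : ∀ g, ∀ v ∈ C, ρ g v ∈ C)
    (hχ : Bump C τ χ K₂) (g : G) {v : V} (hv : v ∈ Dom C τ) :
    ContinuousAt (w τ ρ χ g) v :=
  ContinuousAt.comp (g := χ) (f := pa τ ρ g⁻¹) hχ.cont.continuousAt
    (continuousAt_pa h hpres _ (dom_kbar hv))

theorem sum_pos [FiniteDimensional ℝ V] (h : IsStrictCone C τ)
    (hpres : ∀ g, ∀ v ∈ C, ρ g v ∈ C)
    (hp : Prop' C τ ρ) (hχ : Bump C τ χ K₂) {v : V} (hv : v ∈ Dom C τ) {g : G}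
    (hg : 0 < w τ ρ χ g v) : 0 < ∑ᶠ g, w τ ρ χ g v := by
  have hfin := finite_w h hpres hp hχ hv
  rw [finsum_eq_sum_of_support_subset (s := hfin.toFinset) _ (by
    intro g hg; simpa using hg)]
  refine Finset.sum_pos' (fun g _ => hχ.nonneg _) ⟨g, ?_, hg⟩
  rw [Finite.mem_toFinset]
  exact hg.ne'

/-- Continuity of the average. -/
theorem continuousWithinAt_Xi [FiniteDimensional ℝ V] (h : IsStrictCone C τ)
    (hpres : ∀ g, ∀ v ∈ C, ρ g v ∈ C) (hp : Prop' C τ ρ) (hχ : Bump C τ χ K₂) (b : G → E) {v : V}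
    (hv : v ∈ Dom C τ) {g : G} (hg : 0 < w τ ρ χ g v) :
    ContinuousWithinAt (Xi τ ρ χ b) (Dom C τ) v := by
  obtain ⟨N, hN, F, hF⟩ := locfin h hpres hp hχ hv
  have h0 := sum_pos h hpres hp hχ hv hg
  have hs1 : ∀ v' ∈ N, v' ∈ Dom C τ → ∑ᶠ g, w τ ρ χ g v' = ∑ g ∈ F, w τ ρ χ g v' := by
    intro v' hv' hvD
    refine finsum_eq_sum_of_support_subset _ ?_
    intro g hg
    exact hF v' hv' hvD g hg
  have hs2 : ∀ v' ∈ N, v' ∈ Dom C τ →
      ∑ᶠ g, w τ ρ χ g v' • b g = ∑ g ∈ F, w τ ρ χ g v' • b g := by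
    intro v' hv' hvD
    refine finsum_eq_sum_of_support_subset _ ?_
    intro g hg
    refine hF v' hv' hvD g fun h1 => hg ?_
    change w τ ρ χ g v' • b g = 0
    rw [h1, zero_smul]
  have hc1 : ContinuousAt (fun v' => ∑ g ∈ F, w τ ρ χ g v') v :=
    tendsto_finsetSum _ fun g _ => continuousOn_w h hpres hχ g hv
  have hc2 : ContinuousAt (fun v' => ∑ g ∈ F, w τ ρ χ g v' • b g) v :=
    tendsto_finsetSum _ fun g _ => (continuousOn_w h hpres hχ g hv).smul continuousAt_const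
  have hvN := mem_of_mem_nhds hN
  have hc : ContinuousAt (fun v' => (∑ g ∈ F, w τ ρ χ g v')⁻¹ • ∑ g ∈ F, w τ ρ χ g v' • b g) v :=
    (hc1.inv₀ (by rw [← hs1 v hvN hv]; exact h0.ne')).smul hc2
  refine hc.continuousWithinAt.congr_of_eventuallyEq ?_ ?_
  · filter_upwards [mem_nhdsWithin_of_mem_nhds hN, self_mem_nhdsWithin] with v' h1 h2
    simp only [Xi]
    rw [hs1 v' h1 h2, hs2 v' h1 h2]
  · simp only [Xi]
    rw [hs1 v hvN hv, hs2 v hvN hv]

/-- The average lies in every convex set that contains the points with positive weight. -/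
theorem Xi_mem [FiniteDimensional ℝ V] (h : IsStrictCone C τ)
    (hpres : ∀ g, ∀ v ∈ C, ρ g v ∈ C) (hp : Prop' C τ ρ) (hχ : Bump C τ χ K₂) (b : G → E) {v : V}
    (hv : v ∈ Dom C τ) {g : G} (hg : 0 < w τ ρ χ g v) {U : Set E} (hU : Convex ℝ U)
    (hmem : ∀ g, 0 < w τ ρ χ g v → b g ∈ U) : Xi τ ρ χ b v ∈ U := by
  have hfin := finite_w h hpres hp hχ hv
  have h0 := sum_pos h hpres hp hχ hv hg
  have hs1 : ∑ᶠ g, w τ ρ χ g v = ∑ g ∈ hfin.toFinset, w τ ρ χ g v := by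
    refine finsum_eq_sum_of_support_subset _ ?_
    intro g hg; simpa using hg
  have hs2 : ∑ᶠ g, w τ ρ χ g v • b g = ∑ g ∈ hfin.toFinset, w τ ρ χ g v • b g := by
    refine finsum_eq_sum_of_support_subset _ ?_
    intro g hg
    simp only [Finite.coe_toFinset]
    intro h1
    apply hg
    change w τ ρ χ g v • b g = 0
    rw [h1, zero_smul]
  have := hU.centerMass_mem (t := hfin.toFinset) (w := fun g => w τ ρ χ g v) (z := b)
    (fun g _ => hχ.nonneg _) (by rw [← hs1]; exact h0) (fun g hg => hmem g (by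
      rw [Finite.mem_toFinset] at hg
      exact lt_of_le_of_ne (hχ.nonneg _) (Ne.symm hg)))
  convert this using 1
  unfold Finset.centerMass Xi
  rw [hs1, hs2]

end Xi

section Wv

variable {V : Type} [NormedAddCommGroup V] [NormedSpace ℝ V] {G : Type} [Group G] {X : Type}
  [MetricSpace X]
variable {C : Set V} {τ : V →L[ℝ] ℝ} {α : G →* (X ≃ₜ X)} {ρ : G →* (V ≃L[ℝ] V)}

theorem Wv_mem' (hα : IsConvergenceAction α) (h : IsStrictCone C τ)
    (hpres : ∀ g, ∀ v ∈ C, ρ g v ∈ C) {ε : ℝ} (hε : 0 < ε)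
    (hco : ∀ x y z : X, x ≠ y → y ≠ z → x ≠ z → ∃ g : G,
      ε ≤ dist (α g x) (α g y) ∧ ε ≤ dist (α g y) (α g z) ∧ ε ≤ dist (α g x) (α g z))
    {o : V} (ho : o ∈ C) {t : Fin 3 → X} (ht : 0 < sep t) : Wv α ρ ε o t ∈ C := by
  obtain ⟨s, hs, hW⟩ := exists_finset hα hε o ρ ht
  obtain ⟨g, hg⟩ := exists_wt_pos hε hco ht
  have hg' : g⁻¹ ∈ s := (hs _).2 (wt_pos.2 (by rw [inv_inv]; linarith))
  rw [hW]
  refine Finset.sum_induction_nonempty _ (fun v => v ∈ C) (fun v w hv hw => h.add_mem v hv w hw)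
    ⟨_, hg'⟩ ?_
  intro g hg
  exact h.smul_mem _ ((hs g).1 hg) _ (hpres g o ho)

end Wv

end Pool.Agent.H72.Dj
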