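import Pool.Agent.H72.Dj.T4

/-!
# Proper actions on a convex domain are cocompact if the group acts cocompactly on the triples of
# a sphere of the dimension of the boundary
-/

set_option autoImplicit false

open Filter Topology Set Metric Pool.Agent.TH289.C

namespace Pool.Agent.H72.Dj

section Gauge

variable {V : Type} [NormedAddCommGroup V] [NormedSpace ℝ V] {C : Set V} {τ : V →L[ℝ] ℝ}

/-- The inversion of the domain punctured at `v₀`. -/
noncomputable def inv (C : Set V) (v₀ : V) (v : V) : V :=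
  ((1 - gauge (Tr C v₀) (v - v₀)) / gauge (Tr C v₀) (v - v₀)) • (v - v₀)

theorem gauge_lt (h : IsStrictCone C τ) {v₀ : V} (hv₀ : v₀ ∈ C) (v : V) :
    gauge (Tr C v₀) (v - v₀) < 1 ↔ v ∈ C := by
  have h1 := setOfPred_gauge_lt_one_eq_self_of_isOpen (convex_Tr h v₀)
    (mem_of_mem_nhds (Tr_nhds h hv₀)) (isOpen_Tr h v₀)
  have h2 : v - v₀ ∈ {x | gauge (Tr C v₀) x < 1} ↔ v - v₀ ∈ Tr C v₀ := by rw [h1]
  have h3 : v - v₀ ∈ Tr C v₀ ↔ v ∈ C := by
    unfold Tr
    simp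
  exact h2.trans h3

theorem continuous_gauge' (h : IsStrictCone C τ) {v₀ : V} (hv₀ : v₀ ∈ C) :
    Continuous fun v => gauge (Tr C v₀) (v - v₀) :=
  (continuous_gauge (convex_Tr h v₀) (Tr_nhds h hv₀)).comp (continuous_id.sub continuous_const)

theorem gauge_pos' [FiniteDimensional ℝ V] (h : IsStrictCone C τ) {v₀ : V} (hv₀ : v₀ ∈ Dom C τ)
    {v : V} (hv : τ v = 1) (hne : v ≠ v₀) : 0 < gauge (Tr C v₀) (v - v₀) :=
  gauge_pos_Tr h hv₀ (sub_ne_zero.2 hne) (by rw [map_sub, hv, hv₀.2, sub_self])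

theorem continuousAt_inv [FiniteDimensional ℝ V] (h : IsStrictCone C τ) {v₀ : V}
    (hv₀ : v₀ ∈ Dom C τ) {v : V} (hv : τ v = 1) (hne : v ≠ v₀) : ContinuousAt (inv C v₀) v := by
  unfold inv
  have hc := (continuous_gauge' h hv₀.1).continuousAt (x := v)
  exact ((continuousAt_const.sub hc).div hc (gauge_pos' h hv₀ hv hne).ne').smul (by fun_prop)

theorem gauge_inv [FiniteDimensional ℝ V] (h : IsStrictCone C τ) {v₀ : V} (hv₀ : v₀ ∈ Dom C τ)
    {v : V} (hv : v ∈ Dom C τ) (hne : v ≠ v₀) :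
    gauge (Tr C v₀) (inv C v₀ v) = 1 - gauge (Tr C v₀) (v - v₀) := by
  have h1 := gauge_pos' h hv₀ hv.2 hne
  have h2 := (gauge_lt h hv₀.1 v).2 hv.1
  unfold inv
  rw [gauge_smul_of_nonneg (by apply div_nonneg <;> linarith), smul_eq_mul]
  field_simp

theorem inv_inj [FiniteDimensional ℝ V] (h : IsStrictCone C τ) {v₀ : V} (hv₀ : v₀ ∈ Dom C τ)
    {v v' : V} (hv : v ∈ Dom C τ) (hne : v ≠ v₀) (hv' : v' ∈ Dom C τ) (hne' : v' ≠ v₀)
    (heq : inv C v₀ v = inv C v₀ v') : v = v' := by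
  have h1 := gauge_inv h hv₀ hv hne
  have h2 := gauge_inv h hv₀ hv' hne'
  rw [heq, h2] at h1
  have h3 : gauge (Tr C v₀) (v - v₀) = gauge (Tr C v₀) (v' - v₀) := by linarith
  have h4 := gauge_pos' h hv₀ hv.2 hne
  have h5 := (gauge_lt h hv₀.1 v).2 hv.1
  unfold inv at heq
  rw [← h3] at heq
  have h6 : (1 - gauge (Tr C v₀) (v - v₀)) / gauge (Tr C v₀) (v - v₀) ≠ 0 := by
    apply div_ne_zero <;> linarith
  have h7 := smul_right_injective V h6 heq
  simpa using h7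

theorem inv_ne_zero' [FiniteDimensional ℝ V] (h : IsStrictCone C τ) {v₀ : V} (hv₀ : v₀ ∈ Dom C τ)
    {v : V} (hv : v ∈ Dom C τ) (hne : v ≠ v₀) : inv C v₀ v ≠ 0 := by
  intro h0
  have h1 := gauge_inv h hv₀ hv hne
  rw [h0, gauge_zero] at h1
  have h5 := (gauge_lt h hv₀.1 v).2 hv.1
  linarith

theorem τ_inv {v₀ v : V} (hv₀ : τ v₀ = 1) (hv : τ v = 1) : τ (inv C v₀ v) = 0 := by
  unfold inv
  rw [map_smul, map_sub, hv₀, hv, sub_self, smul_zero]

/-- Near the boundary the inversion is small. -/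
theorem inv_small [FiniteDimensional ℝ V] (h : IsStrictCone C τ) {v₀ : V} (hv₀ : v₀ ∈ Dom C τ)
    {δ : ℝ} (hδ : 0 < δ) : ∃ K ⊆ Dom C τ, IsCompact K ∧ ∀ v ∈ Dom C τ, v ∉ K → ‖inv C v₀ v‖ < δ := by
  obtain ⟨M, hM⟩ := (isCompact_Kbar h).isBounded.exists_norm_le
  have hM0 : 0 ≤ |M| := abs_nonneg M
  set L : ℝ := 2 * |M| + 1 with hL
  have hL0 : 0 < L := by positivity
  set c : ℝ := 1 / (1 + δ / L) with hc
  have hc0 : 0 < c := by positivity
  have hc1 : c < 1 := by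
    rw [hc, div_lt_one (by positivity)]
    have : 0 < δ / L := by positivity
    linarith
  refine ⟨{v | v ∈ Kbar C τ ∧ gauge (Tr C v₀) (v - v₀) ≤ c}, ?_, ?_, ?_⟩
  · rintro v ⟨h1, h2⟩
    exact ⟨(gauge_lt h hv₀.1 v).1 (h2.trans_lt hc1), h1.2⟩
  · exact (isCompact_Kbar h).inter_right
      (isClosed_le (continuous_gauge' h hv₀.1) continuous_const)
  · intro v hv hvK
    have h1 : c < gauge (Tr C v₀) (v - v₀) := by
      by_contra h0
      exact hvK ⟨dom_kbar hv, not_lt.1 h0⟩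
    have h2 := (gauge_lt h hv₀.1 v).2 hv.1
    set γ := gauge (Tr C v₀) (v - v₀) with hγ
    have hγ0 : 0 < γ := hc0.trans h1
    have h3 : ‖v - v₀‖ ≤ 2 * |M| := by
      have a1 := hM v (dom_kbar hv)
      have a2 := hM v₀ (dom_kbar hv₀)
      have a3 := norm_sub_le v v₀
      have a4 := le_abs_self M
      linarith
    unfold inv
    rw [norm_smul, ← hγ, Real.norm_of_nonneg (by apply div_nonneg <;> linarith)]
    have h4 : (1 - γ) / γ < δ / L := by
      rw [div_lt_iff₀ hγ0]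
      have h5 : 1 < γ * (1 + δ / L) := by
        have : c * (1 + δ / L) = 1 := by rw [hc]; field_simp
        have h6 : 0 < 1 + δ / L := by positivity
        nlinarith
      nlinarith
    have h7 : 0 ≤ (1 - γ) / γ := by apply div_nonneg <;> linarith
    calc (1 - γ) / γ * ‖v - v₀‖ ≤ (1 - γ) / γ * (2 * |M|) := by gcongr
      _ ≤ δ / L * (2 * |M|) := by gcongr
      _ < δ / L * L := by
          apply mul_lt_mul_of_pos_left _ (by positivity)
          rw [hL]; linarith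
      _ = δ := by field_simp

end Gauge

section Freq

theorem freq_const {S : Type} {F : Set S} (hF : F.Finite) {u : ℕ → S} (hu : ∀ n, u n ∈ F) :
    ∃ s, ∃ φ : ℕ → ℕ, StrictMono φ ∧ ∀ n, u (φ n) = s := by
  have h1 : ∃ s ∈ F, ∃ᶠ n in atTop, u n = s := by
    by_contra hcon
    push Not at hcon
    have h2 := (Filter.eventually_all_finite hF).2 fun s hs => hcon s hs
    obtain ⟨n, hn⟩ := h2.exists
    exact hn (u n) (hu n) rfl
  obtain ⟨s, -, hs⟩ := h1
  obtain ⟨φ, hφ, hφ'⟩ := extraction_of_frequently_atTop hs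
  exact ⟨s, φ, hφ, hφ'⟩

end Freq

section Main

variable {V : Type} [NormedAddCommGroup V] [NormedSpace ℝ V] {G : Type} [Group G] {E : Type}
  [NormedAddCommGroup E] [InnerProductSpace ℝ E]
variable {C : Set V} {τ : V →L[ℝ] ℝ} {α : G →* (Sph E ≃ₜ Sph E)} {ρ : G →* (V ≃L[ℝ] V)}

theorem extract_seq {a : Fin 3 → Sph E} (ha : ∀ i j, i ≠ j → a i ≠ a j) {ξ : Sph E}
    {P : E → Prop} (hP : ∃ᶠ p in 𝓝[ball 0 1] (ξ : E), P p) :
    ∃ p : ℕ → E, ∀ n, ‖p n‖ < 1 ∧ P (p n) ∧ Near ξ (1 / ((n : ℝ) + 1)) (sig a (p n)) := by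
  have h1 : ∀ n : ℕ, ∃ p : E, ‖p‖ < 1 ∧ P p ∧ Near ξ (1 / ((n : ℝ) + 1)) (sig a p) := by
    intro n
    have h2 := (near_sig ha ξ (η := 1 / ((n : ℝ) + 1)) (by positivity)).filter_mono
      (nhdsWithin_le_nhds (s := ball (0 : E) 1))
    have h3 : ∀ᶠ p in 𝓝[ball 0 1] (ξ : E), p ∈ ball (0 : E) 1 := self_mem_nhdsWithin
    obtain ⟨p, hp1, hp2, hp3⟩ := (hP.and_eventually (h2.and h3)).exists
    exact ⟨p, by simpa using hp3, hp1, hp2⟩
  choose p hp using h1
  exact ⟨p, hp⟩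

/-- The barycentre map is onto the domain. -/
theorem Phi_surj [FiniteDimensional ℝ E] [FiniteDimensional ℝ V] (hE : 2 ≤ Module.finrank ℝ E)
    (hV : Module.finrank ℝ V ≤ Module.finrank ℝ E + 1)
    (hα : IsConvergenceAction α) (h : IsStrictCone C τ) (h0 : (0 : V) ∉ C)
    (hpres : ∀ g, ∀ v ∈ C, ρ g v ∈ C)
    (hp : Prop' C τ ρ) {ε : ℝ} (hε : 0 < ε)
    (hco : ∀ x y z : Sph E, x ≠ y → y ≠ z → x ≠ z → ∃ g : G,
      ε ≤ dist (α g x) (α g y) ∧ ε ≤ dist (α g y) (α g z) ∧ ε ≤ dist (α g x) (α g z))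
    {a : Fin 3 → Sph E} (ha : ∀ i j, i ≠ j → a i ≠ a j)
    {o : V} (ho : o ∈ C) {v₀ : V} (hv₀ : v₀ ∈ Dom C τ) :
    ∃ p : E, ‖p‖ < 1 ∧ proj τ (Wv α ρ ε o (sig a p)) = v₀ := by
  classical
  by_contra hcon
  push Not at hcon
  have : ProperSpace E := FiniteDimensional.proper ℝ E
  have hcS : CompactSpace (Sph E) := isCompact_iff_compactSpace.1 (isCompact_sphere (0 : E) 1)
  have hnt : Nontrivial E := Module.nontrivial_of_finrank_pos (R := ℝ) (by omega)
  set Ph : E → V := fun p => proj τ (Wv α ρ ε o (sig a p)) with hPh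
  have hW : ∀ t : Fin 3 → Sph E, 0 < sep t → Wv α ρ ε o t ∈ C := fun t ht =>
    Wv_mem' hα h hpres hε hco ho ht
  have hPhD : ∀ p, ‖p‖ < 1 → Ph p ∈ Dom C τ := fun p hp1 => by
    have := hW _ (sep_sig ha hp1)
    exact proj_mem_Dom h this (h.pos_of_mem h0 this)
  have hPhc : ∀ p, ‖p‖ < 1 → ContinuousAt Ph p := fun p hp1 => by
    have h1 := hW _ (sep_sig ha hp1)
    have h3 : ContinuousAt (fun q => Wv α ρ ε o (sig a q)) p :=
      ContinuousAt.comp (f := sig a) (g := Wv α ρ ε o) (continuousAt_Wv hα hε o (sep_sig ha hp1))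
        (continuousAt_sig a hp1)
    exact ContinuousAt.comp (f := fun q => Wv α ρ ε o (sig a q)) (g := proj τ)
      (continuousAt_proj (h.pos_of_mem h0 h1).ne') h3
  -- the compact set
  set K₁ : Set V := (fun t => proj τ (Wv α ρ ε o t)) '' {t : Fin 3 → Sph E | ε ≤ sep t} with hK₁
  have hcl : IsCompact {t : Fin 3 → Sph E | ε ≤ sep t} :=
    (isClosed_le continuous_const continuous_sep).isCompact
  have hK₁D : K₁ ⊆ Dom C τ := by
    rintro _ ⟨t, ht, rfl⟩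
    have := hW t (hε.trans_le ht)
    exact proj_mem_Dom h this (h.pos_of_mem h0 this)
  have hK₁c : IsCompact K₁ := by
    refine hcl.image_of_continuousOn fun t ht => ?_
    have h1 := hW t (hε.trans_le ht)
    exact (ContinuousAt.comp (g := proj τ) (f := Wv α ρ ε o)
      (continuousAt_proj (h.pos_of_mem h0 h1).ne')
      (continuousAt_Wv hα hε o (hε.trans_le ht))).continuousWithinAt
  have hg : ∀ p, ‖p‖ < 1 → ∃ g, ε ≤ sep (act α g (sig a p)) ∧ pa τ ρ g (Ph p) ∈ K₁ := by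
    intro p hp1
    have hs := sep_sig ha hp1
    obtain ⟨g, hg⟩ := exists_wt_pos hε hco hs
    refine ⟨g, hg, act α g (sig a p), hg, ?_⟩
    change proj τ (Wv α ρ ε o (act α g (sig a p))) = _
    rw [Wv_act hα hε o g hs, hPh, pa_proj g (h.pos_of_mem h0 (hW _ hs))]
  obtain ⟨χ, K₂, hχc, hχ0, hχ1, hK₂c, hK₂D, hK₂⟩ := exists_bump h hK₁c hK₁D
  have hχ : Bump C τ χ K₂ := ⟨hχc, hχ0, hK₂c, hK₂D, hK₂⟩
  have hwpos : ∀ p, ‖p‖ < 1 → ∃ g, 0 < w τ ρ χ g (Ph p) := by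
    intro p hp1
    obtain ⟨g, -, hg2⟩ := hg p hp1
    refine ⟨g⁻¹, ?_⟩
    unfold w
    rw [inv_inv]
    exact hχ1 _ hg2
  -- (F2)
  have F2 : ∀ ξ : Sph E, ∀ K ⊆ Dom C τ, IsCompact K → ∀ᶠ p in 𝓝[ball 0 1] (ξ : E), Ph p ∉ K := by
    intro ξ K hKD hKc
    by_contra hc
    rw [Filter.not_eventually] at hc
    obtain ⟨p, hp'⟩ := extract_seq ha hc
    choose g hg1 hg2 using fun n => hg (p n) (hp' n).1
    obtain ⟨φ, hφ, b, hb⟩ := attract_of_near hα hε (ξ := ξ) (fun n => (g n)⁻¹)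
      (fun n => sig a (p n)) (fun n => (hp' n).2.2) (fun n => by rw [inv_inv]; exact hg1 n)
    have hb' : Conv α (fun n => (g (φ n))⁻¹) ξ b := hb
    have h1 := hb'.cofinite ha
    have hfin := (hp.two hKD hK₁D hKc hK₁c)
    have h2 := h1.eventually ((hfin.image (fun g => g⁻¹)).compl_mem_cofinite)
    obtain ⟨n, hn⟩ := h2.exists
    exact hn ⟨g (φ n), ⟨Ph (p (φ n)), not_not.1 (hp' (φ n)).2.1, hg2 (φ n)⟩, rfl⟩
  -- the coarse inverse
  set b : G → E := fun g => ((cp (act α g a) : Sph E) : E) with hb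
  set Th : E → E := fun p => if ‖p‖ < 1 then Xi τ ρ χ b (Ph p) else p with hTh
  have hsa : 0 < sep a := lt_sep fun i j hij => dist_pos.2 (ha i j hij)
  -- (F3)
  have F3 : ∀ ξ : Sph E, ∀ η > 0, ∀ᶠ p in 𝓝[ball 0 1] (ξ : E),
      dist (Xi τ ρ χ b (Ph p)) (ξ : E) < η := by
    intro ξ η hη
    by_contra hc
    rw [Filter.not_eventually] at hc
    obtain ⟨p, hp'⟩ := extract_seq ha hc
    choose g hg1 hg2 using fun n => hg (p n) (hp' n).1
    have h3 : ∀ n, ∃ g', 0 < w τ ρ χ g' (Ph (p n)) ∧ b g' ∉ ball (ξ : E) η := by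
      intro n
      by_contra hc2
      push Not at hc2
      obtain ⟨g₁, hg₁⟩ := hwpos (p n) (hp' n).1
      have := Xi_mem h hpres hp hχ b (hPhD _ (hp' n).1) hg₁ (convex_ball (ξ : E) η) hc2
      exact (hp' n).2.1 this
    choose g' hg'1 hg'2 using h3
    obtain ⟨φ, hφ, b', hb'⟩ := attract_of_near hα hε (ξ := ξ) (fun n => (g n)⁻¹)
      (fun n => sig a (p n)) (fun n => (hp' n).2.2) (fun n => by rw [inv_inv]; exact hg1 n)
    have hb'' : Conv α (fun n => (g (φ n))⁻¹) ξ b' := hb'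
    have hfin := (hp.two hK₁D hK₂D hK₁c hK₂c)
    have hmem : ∀ n, (g' (φ n))⁻¹ * (g (φ n))⁻¹ ∈ {g : G | ∃ v ∈ K₁, pa τ ρ g v ∈ K₂} := by
      intro n
      have hD := hPhD _ (hp' (φ n)).1
      refine ⟨_, hg2 (φ n), ?_⟩
      rw [pa_mul h hpres _ _ (dom_kbar (pa_dom h hpres _ hD)), pa_inv h hpres _ (dom_kbar hD)]
      exact hK₂ _ (pa_dom h hpres _ hD).2 (hg'1 (φ n))
    obtain ⟨s, ψ, hψ, hs⟩ := freq_const hfin hmem
    have h4 : Conv α (fun n => (g (φ (ψ n)))⁻¹ * s⁻¹) ξ (α (s⁻¹)⁻¹ b') :=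
      (hb''.comp hψ.tendsto_atTop).mul_right s⁻¹
    obtain ⟨n, hn⟩ := (h4.cp hsa hη).exists
    have h5 : (g (φ (ψ n)))⁻¹ * s⁻¹ = g' (φ (ψ n)) := by
      rw [← hs n]; group
    rw [h5] at hn
    exact hg'2 (φ (ψ n)) hn
  -- the inversion
  have hPhne : ∀ p, ‖p‖ < 1 → Ph p ≠ v₀ := hcon
  set Jv : E → V := fun p => if ‖p‖ < 1 then inv C v₀ (Ph p) else 0 with hJv
  -- the target
  let W : Submodule ℝ V := LinearMap.ker (τ : V →ₗ[ℝ] ℝ)
  let pi₀ : V →ₗ[ℝ] V := LinearMap.id - (τ : V →ₗ[ℝ] ℝ).smulRight v₀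
  have hpi₀ : ∀ v, pi₀ v ∈ W := by
    intro v
    rw [LinearMap.mem_ker]
    simp [pi₀, hv₀.2]
  let pi : V →ₗ[ℝ] W := pi₀.codRestrict W hpi₀
  have hpic : Continuous pi := pi.continuous_of_finiteDimensional
  have hpii : ∀ v v', τ v = 0 → τ v' = 0 → pi v = pi v' → v = v' := by
    intro v v' hv hv' heq
    have h1 : pi₀ v = pi₀ v' := congrArg Subtype.val heq
    simpa [pi₀, hv, hv'] using h1
  have hWdim : Module.finrank ℝ W ≤ Module.finrank ℝ E := by
    have h1 := LinearMap.finrank_range_add_finrank_ker (τ : V →ₗ[ℝ] ℝ)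
    have h2 : LinearMap.range (τ : V →ₗ[ℝ] ℝ) = ⊤ := by
      rw [LinearMap.range_eq_top]
      intro c
      exact ⟨c • v₀, by simp [hv₀.2]⟩
    rw [h2, finrank_top, Module.finrank_self] at h1
    change Module.finrank ℝ (LinearMap.ker (τ : V →ₗ[ℝ] ℝ)) ≤ _
    omega
  have hJτ : ∀ p, τ (Jv p) = 0 := by
    intro p
    simp only [hJv]
    split_ifs with hp1
    · exact τ_inv hv₀.2 (hPhD p hp1).2
    · exact map_zero τ
  refine topo hWdim (fun p => pi (Jv p)) Th ?_ ?_ ?_ ?_ ?_ ?_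
  · refine hpic.comp_continuousOn ?_
    intro p hpB
    have hpn : ‖p‖ ≤ 1 := by simpa using hpB
    rcases hpn.eq_or_lt with hp1 | hp1
    · obtain ⟨ξ, rfl⟩ : ∃ ξ : Sph E, (ξ : E) = p := ⟨⟨p, by simpa using hp1⟩, rfl⟩
      have hJξ : Jv (ξ : E) = 0 := by simp [hJv, hp1]
      rw [ContinuousWithinAt, hJξ, Metric.tendsto_nhds]
      intro δ hδ
      obtain ⟨K, hKD, hKc, hK⟩ := inv_small h hv₀ hδ
      have h1 := F2 ξ K hKD hKc
      rw [eventually_nhdsWithin_iff] at h1 ⊢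
      filter_upwards [h1] with p h2 _
      by_cases hp2 : ‖p‖ < 1
      · simp only [hJv, if_pos hp2]
        rw [dist_zero_right]
        exact hK _ (hPhD p hp2) (h2 (by simpa using hp2))
      · simp only [hJv, if_neg hp2, dist_self]
        exact hδ
    · have h1 : ∀ᶠ q in 𝓝 p, ‖q‖ < 1 := continuous_norm.continuousAt.eventually_lt_const hp1
      have h2 : (fun q => inv C v₀ (Ph q)) =ᶠ[𝓝 p] Jv := by
        filter_upwards [h1] with q hq
        simp [hJv, hq]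
      refine (ContinuousAt.congr ?_ h2).continuousWithinAt
      exact ContinuousAt.comp (g := inv C v₀)
        (continuousAt_inv h hv₀ (hPhD p hp1).2 (hPhne p hp1)) (hPhc p hp1)
  · intro p hpB
    have hpn : ‖p‖ ≤ 1 := by simpa using hpB
    rcases hpn.eq_or_lt with hp1 | hp1
    · obtain ⟨ξ, rfl⟩ : ∃ ξ : Sph E, (ξ : E) = p := ⟨⟨p, by simpa using hp1⟩, rfl⟩
      have hTξ : Th (ξ : E) = ξ := by simp [hTh, hp1]
      rw [ContinuousWithinAt, hTξ, Metric.tendsto_nhds]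
      intro δ hδ
      have h1 := F3 ξ δ hδ
      rw [eventually_nhdsWithin_iff] at h1 ⊢
      filter_upwards [h1, ball_mem_nhds (ξ : E) hδ] with p h2 h3 _
      by_cases hp2 : ‖p‖ < 1
      · simp only [hTh, if_pos hp2]
        exact h2 (by simpa using hp2)
      · simp only [hTh, if_neg hp2]
        exact h3
    · have h1 : ∀ᶠ q in 𝓝 p, ‖q‖ < 1 := continuous_norm.continuousAt.eventually_lt_const hp1
      have h2 : (fun q => Xi τ ρ χ b (Ph q)) =ᶠ[𝓝 p] Th := by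
        filter_upwards [h1] with q hq
        simp [hTh, hq]
      refine (ContinuousAt.congr ?_ h2).continuousWithinAt
      obtain ⟨g, hg⟩ := hwpos p hp1
      have h3 := continuousWithinAt_Xi h hpres hp hχ b (hPhD p hp1) hg
      have h4 : Tendsto Ph (𝓝 p) (𝓝[Dom C τ] (Ph p)) := by
        refine tendsto_nhdsWithin_iff.2 ⟨hPhc p hp1, ?_⟩
        filter_upwards [h1] with q hq
        exact hPhD q hq
      exact h3.tendsto.comp h4
  · intro p hpB
    have hpn : ‖p‖ ≤ 1 := by simpa using hpB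
    by_cases hp1 : ‖p‖ < 1
    · simp only [hTh, if_pos hp1]
      obtain ⟨g, hg⟩ := hwpos p hp1
      have := Xi_mem h hpres hp hχ b (hPhD p hp1) hg (convex_closedBall (0 : E) 1) (fun g _ => by
        simp [hb])
      simpa using this
    · simpa only [hTh, if_neg hp1] using hpn
  · intro p hp1
    simp [hTh, hp1]
  · intro p hp1
    simp [hJv, hp1]
  · intro p hpB p' hpB' heq
    have h1 := hpii _ _ (hJτ p) (hJτ p') heq
    by_cases hp1 : ‖p‖ < 1
    · by_cases hp2 : ‖p'‖ < 1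
      · left
        simp only [hJv, if_pos hp1, if_pos hp2] at h1
        have h2 := inv_inj h hv₀ (hPhD p hp1) (hPhne p hp1) (hPhD p' hp2) (hPhne p' hp2) h1
        simp only [hTh, if_pos hp1, if_pos hp2, h2]
      · exfalso
        simp only [hJv, if_pos hp1, if_neg hp2] at h1
        exact inv_ne_zero' h hv₀ (hPhD p hp1) (hPhne p hp1) h1
    · by_cases hp2 : ‖p'‖ < 1
      · exfalso
        simp only [hJv, if_neg hp1, if_pos hp2] at h1
        exact inv_ne_zero' h hv₀ (hPhD p' hp2) (hPhne p' hp2) h1.symm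
      · right
        simp only [hTh, if_neg hp1, if_neg hp2]
        exact ⟨le_antisymm (by simpa using hpB) (not_lt.1 hp1),
          le_antisymm (by simpa using hpB') (not_lt.1 hp2)⟩

end Main

end Pool.Agent.H72.Dj
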