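import Pool.Agent.H72.Dj.T3

/-!
# Disjointness of a minimal convergence action from the actions in which it is not discrete
-/

set_option autoImplicit false

open Filter Topology Set Metric Pool.Agent.TH289.C

namespace Pool.Agent.H72.Dj

section Dis

variable {G : Type} [Group G] {X : Type} [MetricSpace X] {α : G →* (X ≃ₜ X)}

theorem Conv.inv {g : ℕ → G} {a b : X} (h : Conv α g a b) : Conv α (fun n => (g n)⁻¹) b a := by
  intro U hU W hW
  filter_upwards [h W hW U hU] with n hn x hx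
  by_contra hcon
  have := hn _ hcon
  rw [map_inv_apply'] at this
  exact hx this

theorem infinite_orbit [Infinite X] (hmin : ∀ x, Dense (range fun g => α g x)) (b : X) :
    (range fun g => α g b).Infinite := by
  intro hfin
  have h1 := hmin b
  have h2 : (range fun g => α g b) = univ := by
    rw [← h1.closure_eq, hfin.isClosed.closure_eq]
  rw [h2] at hfin
  exact Set.infinite_univ hfin

/-- The key sequence: it converges to `a` at every point. -/
theorem exists_seq_all [Infinite X] (hmin : ∀ x, Dense (range fun g => α g x))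
    {h : ℕ → G} {a b : X} (hab : Conv α h a b) :
    ∃ (s : G) (m k : ℕ → ℕ), Tendsto m atTop atTop ∧ Tendsto k atTop atTop ∧
      ∀ w, Tendsto (fun n => α (h (m n) * s * (h (k n))⁻¹) w) atTop (𝓝 a) := by
  -- two points of the orbit
  obtain ⟨c₁, hc₁, hc₁'⟩ := ((infinite_orbit hmin b).sdiff (Set.finite_singleton b)).nonempty
  obtain ⟨c₂, hc₂, hc₂'⟩ := ((infinite_orbit hmin b).sdiff (Set.toFinite {b, c₁})).nonempty
  obtain ⟨s₁, hs₁⟩ := hc₁
  obtain ⟨s₂, hs₂⟩ := hc₂
  simp only at hs₁ hs₂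
  simp only [mem_singleton_iff] at hc₁'
  simp only [mem_insert_iff, mem_singleton_iff, not_or] at hc₂'
  -- a subsequence
  have hfreq : ∃ s : G, α s b ≠ b ∧ ∃ᶠ k in atTop, α s (α (h k)⁻¹ a) ≠ b := by
    by_contra hcon
    push Not at hcon
    have e1 := hcon s₁⁻¹ (fun h0 => hc₁' (by rw [← hs₁, ← h0, map_inv_apply', h0]))
    have e2 := hcon s₂⁻¹ (fun h0 => hc₂'.1 (by rw [← hs₂, ← h0, map_inv_apply', h0]))
    obtain ⟨k, hk1, hk2⟩ := (e1.and e2).exists
    apply hc₂'.2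
    rw [← hs₁, ← hs₂]
    have f1 : α s₁ b = α (h k)⁻¹ a := by rw [← hk1, map_inv_apply']
    have f2 : α s₂ b = α (h k)⁻¹ a := by rw [← hk2, map_inv_apply']
    rw [f1, f2]
  obtain ⟨s, hsb, hs⟩ := hfreq
  obtain ⟨k, hk, hk'⟩ := extraction_of_frequently_atTop hs
  -- choice of `m`
  have h1 : ∀ n : ℕ, ∃ m, n ≤ m ∧ dist (α (h m) (α s (α (h (k n))⁻¹ a))) a < 1 / ((n : ℝ) + 1) := by
    intro n
    have h2 := hab.tendsto (hk' n)
    have h3 := (Metric.tendsto_nhds.1 h2) (1 / ((n : ℝ) + 1)) (by positivity)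
    obtain ⟨m, hm1, hm2⟩ := (h3.and (eventually_ge_atTop n)).exists
    exact ⟨m, hm2, hm1⟩
  choose m hm hm' using h1
  have hmt : Tendsto m atTop atTop := tendsto_atTop_mono hm tendsto_id
  refine ⟨s, m, k, hmt, hk.tendsto_atTop, fun w => ?_⟩
  have e : ∀ n, α (h (m n) * s * (h (k n))⁻¹) w = α (h (m n)) (α s (α (h (k n))⁻¹ w)) := by
    intro n
    rw [map_mul_apply, map_mul_apply]
  simp only [e]
  by_cases hw : w = a
  · subst hw
    rw [tendsto_iff_dist_tendsto_zero]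
    refine squeeze_zero (fun n => dist_nonneg) (fun n => (hm' n).le) ?_
    exact tendsto_one_div_add_atTop_nhds_zero_nat
  · have h2 : Tendsto (fun n => α (h (k n))⁻¹ w) atTop (𝓝 b) :=
      (hab.inv.tendsto hw).comp hk.tendsto_atTop
    have h3 : Tendsto (fun n => α s (α (h (k n))⁻¹ w)) atTop (𝓝 (α s b)) :=
      ((α s).continuous.tendsto b).comp h2
    exact (hab.comp hmt).tendsto' h3 hsb

/-- **Disjointness.** -/
theorem disjoint_gen [CompactSpace X] [Infinite X] (hα : IsConvergenceAction α)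
    (hmin : ∀ x, Dense (range fun g => α g x)) {Z : Type} [TopologicalSpace Z] [T2Space Z]
    (β : G → Z → Z) (hβm : ∀ g h z, β (g * h) z = β g (β h z)) (hβ1 : ∀ z, β 1 z = z)
    (hβc : ∀ g, Continuous (β g)) {h : ℕ → G} (hh : Tendsto h atTop cofinite) (u u' : Z → Z)
    (hu : ∀ z, Tendsto (fun p : ℕ × Z => β (h p.1) p.2) (atTop ×ˢ 𝓝 z) (𝓝 (u z)))
    (hu' : ∀ z, Tendsto (fun p : ℕ × Z => β (h p.1)⁻¹ p.2) (atTop ×ˢ 𝓝 z) (𝓝 (u' z)))
    {R : Set (X × Z)} (hR : IsClosed R) (hRinv : ∀ g x z, (x, z) ∈ R → (α g x, β g z) ∈ R) :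
    ∀ x x' z, (x, z) ∈ R → (x', z) ∈ R := by
  obtain ⟨φ, hφ, a, b, hab⟩ := hα h hh
  have hab' : Conv α (fun n => h (φ n)) a b := hab
  obtain ⟨s, m, k, hm, hk, hmk⟩ := exists_seq_all hmin hab'
  -- limits in `Z`
  have hlim : ∀ {i : ℕ → ℕ} (_ : Tendsto i atTop atTop) {z : ℕ → Z} {z₀ : Z}
      (_ : Tendsto z atTop (𝓝 z₀)), Tendsto (fun n => β (h (i n)) (z n)) atTop (𝓝 (u z₀)) := by
    intro i hi z z₀ hz
    exact (hu z₀).comp (hi.prodMk hz)
  have hlim' : ∀ {i : ℕ → ℕ} (_ : Tendsto i atTop atTop) {z : ℕ → Z} {z₀ : Z}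
      (_ : Tendsto z atTop (𝓝 z₀)), Tendsto (fun n => β (h (i n))⁻¹ (z n)) atTop (𝓝 (u' z₀)) := by
    intro i hi z z₀ hz
    exact (hu' z₀).comp (hi.prodMk hz)
  have huu' : ∀ z, u (u' z) = z := by
    intro z
    have h1 := hlim' tendsto_id (tendsto_const_nhds (x := z))
    have h2 := hlim tendsto_id h1
    refine tendsto_nhds_unique h2 ?_
    have h3 : ∀ n : ℕ, β (h (id n)) (β (h (id n))⁻¹ z) = z := fun n => by
      rw [← hβm, mul_inv_cancel, hβ1]
    simp only [h3]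
    exact tendsto_const_nhds
  have hu'u : ∀ z, u' (u z) = z := by
    intro z
    have h1 := hlim tendsto_id (tendsto_const_nhds (x := z))
    have h2 := hlim' tendsto_id h1
    refine tendsto_nhds_unique h2 ?_
    have h3 : ∀ n : ℕ, β (h (id n))⁻¹ (β (h (id n)) z) = z := fun n => by
      rw [← hβm, inv_mul_cancel, hβ1]
    simp only [h3]
    exact tendsto_const_nhds
  -- the projection of `R`
  have hZ : IsClosed (Prod.snd '' R) := isClosedMap_snd_of_compactSpace _ hR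
  have hZg : ∀ g z, z ∈ Prod.snd '' R → β g z ∈ Prod.snd '' R := by
    rintro g _ ⟨⟨x, z⟩, hxz, rfl⟩
    exact ⟨(α g x, β g z), hRinv g x z hxz, rfl⟩
  have hZu : ∀ z, z ∈ Prod.snd '' R → u z ∈ Prod.snd '' R := by
    intro z hz
    exact hZ.mem_of_tendsto (hlim tendsto_id (tendsto_const_nhds (x := z)))
      (Eventually.of_forall fun n => hZg _ _ hz)
  have hZu' : ∀ z, z ∈ Prod.snd '' R → u' z ∈ Prod.snd '' R := by
    intro z hz
    exact hZ.mem_of_tendsto (hlim' tendsto_id (tendsto_const_nhds (x := z)))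
      (Eventually.of_forall fun n => hZg _ _ hz)
  -- the fibre of `a`
  have hfib : ∀ z ∈ Prod.snd '' R, (a, z) ∈ R := by
    intro z hz
    set z' := u (β s⁻¹ (u' z)) with hz'
    have hz'R : z' ∈ Prod.snd '' R := hZu _ (hZg _ _ (hZu' _ hz))
    obtain ⟨⟨x, z''⟩, hx, hz''⟩ := hz'R
    simp only at hz''
    rw [hz''] at hx
    have hk' : Tendsto (fun n => φ (k n)) atTop atTop := hφ.tendsto_atTop.comp hk
    have hm' : Tendsto (fun n => φ (m n)) atTop atTop := hφ.tendsto_atTop.comp hm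
    have h1 := hlim' hk' (tendsto_const_nhds (x := z'))
    have h2 : Tendsto (fun n => β s (β (h (φ (k n)))⁻¹ z')) atTop (𝓝 (β s (u' z'))) :=
      ((hβc s).tendsto _).comp h1
    have h3 := hlim hm' h2
    have h4 : u (β s (u' z')) = z := by
      rw [hz', hu'u, ← hβm, mul_inv_cancel, hβ1, huu']
    rw [h4] at h3
    have h5 : Tendsto (fun n => (α (h (φ (m n)) * s * (h (φ (k n)))⁻¹) x,
        β (h (φ (m n))) (β s (β (h (φ (k n)))⁻¹ z')))) atTop (𝓝 (a, z)) :=
      (hmk x).prodMk_nhds h3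
    refine hR.mem_of_tendsto h5 (Eventually.of_forall fun n => ?_)
    have h6 := hRinv (h (φ (m n)) * s * (h (φ (k n)))⁻¹) x z' hx
    rw [hβm, hβm] at h6
    exact h6
  intro x x' z hxz
  have hz : z ∈ Prod.snd '' R := ⟨(x, z), hxz, rfl⟩
  have hcl : IsClosed {x : X | (x, z) ∈ R} := hR.preimage (by fun_prop)
  have hsub : (range fun g => α g a) ⊆ {x : X | (x, z) ∈ R} := by
    rintro _ ⟨g, rfl⟩
    have h1 := hRinv g a (β g⁻¹ z) (hfib _ (hZg _ _ hz))
    rw [← hβm, mul_inv_cancel, hβ1] at h1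
    exact h1
  exact (hcl.closure_subset_iff.2 hsub) (hmin a x')

end Dis

end Pool.Agent.H72.Dj
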