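import Pool.Agent.H72.Dj.T5
import Pool.Agent.H72.Dj.T6

/-!
# Dichotomy for actions on strictly convex domains
-/

set_option autoImplicit false

open Filter Topology Set Metric Pool.Agent.TH289.C

namespace Pool.Agent.H72.Dj

section Bdd

variable {V : Type} [NormedAddCommGroup V] [NormedSpace ℝ V] {C : Set V} {τ : V →L[ℝ] ℝ}

/-- The norm is controlled by `τ` on the cone. -/
theorem norm_le_tau [FiniteDimensional ℝ V] (h : IsStrictCone C τ) :
    ∃ M : ℝ, 0 ≤ M ∧ ∀ v ∈ closure C, ‖v‖ ≤ M * τ v := by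
  obtain ⟨M, hM⟩ := (isCompact_Kbar h).isBounded.exists_norm_le
  refine ⟨|M|, abs_nonneg M, fun v hv => ?_⟩
  by_cases h0 : v = 0
  · simp [h0]
  · have hp := h.pos v hv h0
    have h1 := hM _ (proj_mem_Kbar h hv hp)
    unfold proj at h1
    rw [norm_smul, norm_inv, Real.norm_of_nonneg hp.le, inv_mul_le_iff₀ hp] at h1
    have h2 := le_abs_self M
    nlinarith

/-- The linear maps which preserve the cone and move a point of `K` to a point of `K` are
bounded. -/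
theorem bdd_of_meet [FiniteDimensional ℝ V] (h : IsStrictCone C τ) (h0 : (0 : V) ∉ C) {K : Set V}
    (hK : IsCompact K) (hKD : K ⊆ Dom C τ) :
    ∃ M : ℝ, ∀ T : V →L[ℝ] V, (∀ v ∈ C, T v ∈ C) → (∃ v ∈ K, T v ∈ K) → ‖T‖ ≤ M := by
  obtain ⟨M₀, hM₀, hM₀'⟩ := norm_le_tau h
  obtain ⟨o, ho⟩ := h.nonempty
  obtain ⟨δ, hδ, hδ'⟩ := Metric.isOpen_iff.1 h.isOpen o ho
  obtain ⟨δ', hδ'0, hδ''⟩ := hK.exists_thickening_subset_open h.isOpen fun v hv => (hKD hv).1
  -- `v - c x ∈ C` for `v ∈ K`, `‖x‖ ≤ r`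
  set r : ℝ := ‖o‖ + δ with hr
  have hr0 : 0 < r := by positivity
  set c : ℝ := δ' / (2 * r) with hc
  have hc0 : 0 < c := by positivity
  have hcK : ∀ v ∈ K, ∀ x : V, ‖x‖ ≤ r → v - c • x ∈ C := by
    intro v hv x hx
    refine hδ'' (Metric.mem_thickening_iff.2 ⟨v, hv, ?_⟩)
    rw [dist_eq_norm]
    have : v - c • x - v = -(c • x) := by abel
    rw [this, norm_neg, norm_smul, Real.norm_of_nonneg hc0.le]
    calc c * ‖x‖ ≤ c * r := by gcongr
      _ = δ' / 2 := by rw [hc]; field_simp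
      _ < δ' := by linarith
  refine ⟨2 * (M₀ * (1 / c)) / (δ / 2), fun T hT ⟨v, hv, hTv⟩ => ?_⟩
  have hTv1 : τ (T v) = 1 := (hKD hTv).2
  have key : ∀ x ∈ C, ‖x‖ ≤ r → ‖T x‖ ≤ M₀ * (1 / c) := by
    intro x hx hxr
    have h1 := hT _ (hcK v hv x hxr)
    have h2 := h.pos_of_mem h0 h1
    rw [map_sub, map_sub, map_smul, map_smul, smul_eq_mul, hTv1] at h2
    have h3 : τ (T x) ≤ 1 / c := by
      rw [le_div_iff₀ hc0]
      linarith
    calc ‖T x‖ ≤ M₀ * τ (T x) := hM₀' _ (subset_closure (hT x hx))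
      _ ≤ M₀ * (1 / c) := by gcongr
  refine ContinuousLinearMap.opNorm_le_bound _ (by positivity) fun x => ?_
  by_cases hx0 : x = 0
  · simp [hx0]
  have hxn : 0 < ‖x‖ := norm_pos_iff.2 hx0
  set y : V := (δ / 2 / ‖x‖) • x with hy
  have hyn : ‖y‖ = δ / 2 := by
    rw [hy, norm_smul, Real.norm_of_nonneg (by positivity)]
    field_simp
  have hoy : o + y ∈ C := hδ' (by
    rw [mem_ball, dist_eq_norm]
    have : o + y - o = y := by abel
    rw [this, hyn]; linarith)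
  have h1 := key _ hoy (by
    calc ‖o + y‖ ≤ ‖o‖ + ‖y‖ := norm_add_le _ _
      _ ≤ r := by rw [hyn, hr]; linarith)
  have h2 := key _ ho (by rw [hr]; linarith)
  have h3 : ‖T y‖ ≤ 2 * (M₀ * (1 / c)) := by
    have : T y = T (o + y) - T o := by rw [map_add]; abel
    rw [this]
    calc ‖T (o + y) - T o‖ ≤ ‖T (o + y)‖ + ‖T o‖ := norm_sub_le _ _
      _ ≤ 2 * (M₀ * (1 / c)) := by linarith
  have h4 : T x = (‖x‖ / (δ / 2)) • T y := by
    rw [hy, map_smul, smul_smul]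
    have : ‖x‖ / (δ / 2) * (δ / 2 / ‖x‖) = 1 := by field_simp
    rw [this, one_smul]
  rw [h4, norm_smul, Real.norm_of_nonneg (by positivity)]
  calc ‖x‖ / (δ / 2) * ‖T y‖ ≤ ‖x‖ / (δ / 2) * (2 * (M₀ * (1 / c))) := by gcongr
    _ = 2 * (M₀ * (1 / c)) / (δ / 2) * ‖x‖ := by ring

end Bdd

section Lim

variable {V : Type} [NormedAddCommGroup V] [NormedSpace ℝ V] {G : Type} [Group G]
variable {C : Set V} {τ : V →L[ℝ] ℝ} {ρ : G →* (V ≃L[ℝ] V)}

/-- If the action is not proper then some sequence of distinct elements converges. -/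
theorem exists_limit [FiniteDimensional ℝ V] (h : IsStrictCone C τ) (h0 : (0 : V) ∉ C)
    (hpres : ∀ g, ∀ v ∈ C, ρ g v ∈ C) (hp : ¬ Prop' C τ ρ) :
    ∃ (g : ℕ → G) (A B : V →L[ℝ] V) (c : ℕ → ℝ), Function.Injective g ∧ (∀ n, 0 < c n) ∧
      Tendsto (fun n => (c n) • (ρ (g n) : V →L[ℝ] V)) atTop (𝓝 A) ∧
      Tendsto (fun n => (c n)⁻¹ • (ρ (g n)⁻¹ : V →L[ℝ] V)) atTop (𝓝 B) ∧ A.comp B = 1 ∧
      B.comp A = 1 := by
  unfold Prop' at hp
  push Not at hp
  obtain ⟨K, hKD, hKc, hinf⟩ := hp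
  have hinf' : {g : G | ∃ v ∈ K, pa τ ρ g v ∈ K}.Infinite := hinf
  set e := hinf'.natEmbedding
  have hinj : Function.Injective fun n => (e n : G) := fun m n h => e.injective (Subtype.ext h)
  choose v hv hv' using fun n => (e n).2
  have hvD : ∀ n, v n ∈ Dom C τ := fun n => hKD (hv n)
  set c : ℕ → ℝ := fun n => (τ (ρ (e n : G) (v n)))⁻¹ with hc
  have hτ : ∀ n, 0 < τ (ρ (e n : G) (v n)) := fun n => pos_kbar h hpres _ (dom_kbar (hvD n))
  have hc0 : ∀ n, 0 < c n := fun n => inv_pos.2 (hτ n)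
  obtain ⟨M, hM⟩ := bdd_of_meet h h0 hKc hKD
  have hA : ∀ n, ‖(c n) • (ρ (e n : G) : V →L[ℝ] V)‖ ≤ M := by
    intro n
    refine hM _ (fun x hx => h.smul_mem _ (hc0 n) _ (hpres _ x hx)) ⟨v n, hv n, ?_⟩
    exact hv' n
  have hB : ∀ n, ‖(c n)⁻¹ • (ρ (e n : G)⁻¹ : V →L[ℝ] V)‖ ≤ M := by
    intro n
    refine hM _ (fun x hx => h.smul_mem _ (inv_pos.2 (hc0 n)) _ (hpres _ x hx))
      ⟨pa τ ρ (e n : G) (v n), hv' n, ?_⟩
    have : (c n)⁻¹ • (ρ (e n : G)⁻¹ : V →L[ℝ] V) (pa τ ρ (e n : G) (v n)) = v n := by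
      change (c n)⁻¹ • ρ (e n : G)⁻¹ (proj τ (ρ (e n : G) (v n))) = v n
      rw [proj.eq_1, map_smul, rho_inv, smul_smul, hc]
      simp only
      rw [mul_comm, inv_inv, inv_mul_cancel₀ (hτ n).ne', one_smul]
    have h2 : (((c n)⁻¹ • (ρ (e n : G)⁻¹ : V →L[ℝ] V)) : V →L[ℝ] V) (pa τ ρ (e n : G) (v n)) =
        v n := this
    rw [h2]
    exact hv n
  have : ProperSpace (V →L[ℝ] V) := FiniteDimensional.proper ℝ (V →L[ℝ] V)
  obtain ⟨A, -, φ, hφ, hAl⟩ := (isCompact_closedBall (0 : V →L[ℝ] V) M).tendsto_subseq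
    (x := fun n => (c n) • (ρ (e n : G) : V →L[ℝ] V)) (fun n => by simpa using hA n)
  obtain ⟨B, -, ψ, hψ, hBl⟩ := (isCompact_closedBall (0 : V →L[ℝ] V) M).tendsto_subseq
    (x := fun n => (c (φ n))⁻¹ • (ρ (e (φ n) : G)⁻¹ : V →L[ℝ] V)) (fun n => by simpa using hB (φ n))
  have hAl' : Tendsto (fun n => (c (φ (ψ n))) • (ρ (e (φ (ψ n)) : G) : V →L[ℝ] V)) atTop (𝓝 A) :=
    hAl.comp hψ.tendsto_atTop
  have hcomp : Continuous fun p : (V →L[ℝ] V) × (V →L[ℝ] V) => p.1.comp p.2 :=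
    (ContinuousLinearMap.compL ℝ V V V).continuous₂
  refine ⟨fun n => e (φ (ψ n)), A, B, fun n => c (φ (ψ n)), fun m n hmn => ?_,
    fun n => hc0 _, hAl', hBl, ?_, ?_⟩
  · exact (hφ.injective.comp hψ.injective) (hinj hmn)
  · have h1 := (hcomp.tendsto (A, B)).comp (hAl'.prodMk_nhds hBl)
    refine tendsto_nhds_unique h1 ?_
    refine tendsto_const_nhds.congr fun n => ?_
    ext x
    change x = c (φ (ψ n)) • ρ (e (φ (ψ n)) : G)
      ((c (φ (ψ n)))⁻¹ • ρ (e (φ (ψ n)) : G)⁻¹ x)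
    rw [map_smul, ← rho_mul, mul_inv_cancel, rho_one, smul_smul, mul_inv_cancel₀ (hc0 _).ne',
      one_smul]
  · have h1 := (hcomp.tendsto (B, A)).comp (hBl.prodMk_nhds hAl')
    refine tendsto_nhds_unique h1 ?_
    refine tendsto_const_nhds.congr fun n => ?_
    ext x
    change x = (c (φ (ψ n)))⁻¹ • ρ (e (φ (ψ n)) : G)⁻¹
      ((c (φ (ψ n))) • ρ (e (φ (ψ n)) : G) x)
    rw [map_smul, ← rho_mul, inv_mul_cancel, rho_one, smul_smul, inv_mul_cancel₀ (hc0 _).ne',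
      one_smul]

end Lim

section Dichotomy

variable {V : Type} [NormedAddCommGroup V] [NormedSpace ℝ V] {G : Type} [Group G]
variable {C : Set V} {τ : V →L[ℝ] ℝ} {ρ : G →* (V ≃L[ℝ] V)}
variable {X : Type} [MetricSpace X] {α : G →* (X ≃ₜ X)}

/-- The action on the closed domain. -/
noncomputable def ka (h : IsStrictCone C τ) (hpres : ∀ g, ∀ v ∈ C, ρ g v ∈ C) (g : G)
    (v : Kbar C τ) : Kbar C τ := ⟨pa τ ρ g v, pa_kbar h hpres g v.2⟩

/-- If the action on the domain is not proper, then the closed invariant subsets of `X × Kbar` are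
products. -/
theorem disjoint_cone [FiniteDimensional ℝ V] [CompactSpace X] [Infinite X]
    (hα : IsConvergenceAction α) (hmin : ∀ x, Dense (range fun g => α g x))
    (h : IsStrictCone C τ) (h0 : (0 : V) ∉ C) (hpres : ∀ g, ∀ v ∈ C, ρ g v ∈ C)
    (hp : ¬ Prop' C τ ρ) {R : Set (X × V)} (hR : IsClosed R) (hRK : ∀ x v, (x, v) ∈ R → v ∈ Kbar C τ)
    (hRinv : ∀ g x v, (x, v) ∈ R → (α g x, pa τ ρ g v) ∈ R) :
    ∀ x x' v, (x, v) ∈ R → (x', v) ∈ R := by
  obtain ⟨g, A, B, c, hg, hc, hA, hB, hAB, hBA⟩ := exists_limit h h0 hpres hp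
  have hAi : ∀ v, B (A v) = v := fun v => by
    have := congrArg (fun T : V →L[ℝ] V => T v) hBA
    exact this
  have hBi : ∀ v, A (B v) = v := fun v => by
    have := congrArg (fun T : V →L[ℝ] V => T v) hAB
    exact this
  have happ : Continuous fun p : (V →L[ℝ] V) × V => p.1 p.2 := by
    fun_prop
  have hAcl : ∀ v ∈ closure C, A v ∈ closure C := by
    intro v hv
    have h1 : Tendsto (fun n => (c n) • ρ (g n) v) atTop (𝓝 (A v)) :=
      (happ.tendsto (A, v)).comp (hA.prodMk_nhds tendsto_const_nhds)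
    exact isClosed_closure.mem_of_tendsto h1
      (Eventually.of_forall fun n => h.smul_cl (hc n) (pres_cl hpres _ hv))
  have hBcl : ∀ v ∈ closure C, B v ∈ closure C := by
    intro v hv
    have h1 : Tendsto (fun n => (c n)⁻¹ • ρ (g n)⁻¹ v) atTop (𝓝 (B v)) :=
      (happ.tendsto (B, v)).comp (hB.prodMk_nhds tendsto_const_nhds)
    exact isClosed_closure.mem_of_tendsto h1
      (Eventually.of_forall fun n => h.smul_cl (inv_pos.2 (hc n)) (pres_cl hpres _ hv))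
  have hA0 : ∀ v ∈ Kbar C τ, 0 < τ (A v) := fun v hv => h.pos _ (hAcl v hv.1) fun h1 =>
    ne_zero_of_one hv.2 (by rw [← hAi v, h1, map_zero])
  have hB0 : ∀ v ∈ Kbar C τ, 0 < τ (B v) := fun v hv => h.pos _ (hBcl v hv.1) fun h1 =>
    ne_zero_of_one hv.2 (by rw [← hBi v, h1, map_zero])
  set u : Kbar C τ → Kbar C τ := fun v => ⟨proj τ (A v),
    proj_mem_Kbar h (hAcl v v.2.1) (hA0 v v.2)⟩ with hu
  set u' : Kbar C τ → Kbar C τ := fun v => ⟨proj τ (B v),
    proj_mem_Kbar h (hBcl v v.2.1) (hB0 v v.2)⟩ with hu'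
  have key := disjoint_gen hα hmin (Z := Kbar C τ) (ka (ρ := ρ) h hpres)
    (fun g g' v => Subtype.ext (pa_mul h hpres g g' v.2)) (fun v => Subtype.ext (pa_one v.2))
    (fun g => by
      refine Continuous.subtype_mk ?_ _
      rw [continuous_iff_continuousAt]
      intro v
      exact ContinuousAt.comp (g := pa τ ρ g) (f := Subtype.val)
        (continuousAt_pa h hpres g v.2) continuous_subtype_val.continuousAt)
    (h := g) (tendsto_cofinite_of_inj hg) u u' (fun z => by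
      rw [tendsto_subtype_rng]
      have h1 : Tendsto (fun p : ℕ × Kbar C τ => (c p.1) • ρ (g p.1) (p.2 : V)) (atTop ×ˢ 𝓝 z)
          (𝓝 (A z)) := by
        have h2 : Tendsto (fun p : ℕ × Kbar C τ =>
            ((c p.1) • (ρ (g p.1) : V →L[ℝ] V), (p.2 : V))) (atTop ×ˢ 𝓝 z) (𝓝 (A, (z : V))) :=
          (hA.comp tendsto_fst).prodMk_nhds
            ((continuous_subtype_val.tendsto z).comp tendsto_snd)
        exact (happ.tendsto (A, (z : V))).comp h2
      have h3 := (continuousAt_proj (hA0 z z.2).ne').tendsto.comp h1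
      refine h3.congr fun p => ?_
      simp only [Function.comp]
      rw [proj_smul (hc _).ne']
      rfl) (fun z => by
      rw [tendsto_subtype_rng]
      have h1 : Tendsto (fun p : ℕ × Kbar C τ => (c p.1)⁻¹ • ρ (g p.1)⁻¹ (p.2 : V))
          (atTop ×ˢ 𝓝 z) (𝓝 (B z)) := by
        have h2 : Tendsto (fun p : ℕ × Kbar C τ =>
            ((c p.1)⁻¹ • (ρ (g p.1)⁻¹ : V →L[ℝ] V), (p.2 : V))) (atTop ×ˢ 𝓝 z)
            (𝓝 (B, (z : V))) :=
          (hB.comp tendsto_fst).prodMk_nhds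
            ((continuous_subtype_val.tendsto z).comp tendsto_snd)
        exact (happ.tendsto (B, (z : V))).comp h2
      have h3 := (continuousAt_proj (hB0 z z.2).ne').tendsto.comp h1
      refine h3.congr fun p => ?_
      simp only [Function.comp]
      rw [proj_smul (inv_pos.2 (hc _)).ne']
      rfl)
    (R := {p : X × Kbar C τ | (p.1, (p.2 : V)) ∈ R}) (hR.preimage (by fun_prop))
    (fun g x v hxv => hRinv g x v hxv)
  intro x x' v hxv
  exact key x x' ⟨v, hRK x v hxv⟩ hxv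

end Dichotomy

end Pool.Agent.H72.Dj
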