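import Pool.Agent.H72.Dj.T7

/-!
# Dynamics on the closed domain; equivariant maps in both directions
-/

set_option autoImplicit false

open Filter Topology Set Metric Pool.Agent.TH289.C

namespace Pool.Agent.H72.Dj

section Dyn

variable {V : Type} [NormedAddCommGroup V] [NormedSpace ℝ V] {G : Type} [Group G]
variable {C : Set V} {τ : V →L[ℝ] ℝ} {ρ : G →* (V ≃L[ℝ] V)}

theorem eq_zero_of_cone (h : IsStrictCone C τ) {T : V →L[ℝ] V} (hT : ∀ v ∈ closure C,
    T v ∈ closure C) {v : V} (hv : v ∈ C) (hTv : T v = 0) : T = 0 := by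
  ext x
  change T x = 0
  have hlim : ∀ y : V, Tendsto (fun s : ℝ => v + s • y) (𝓝 0) (𝓝 v) := by
    intro y
    have : Continuous fun s : ℝ => v + s • y := by fun_prop
    simpa using this.tendsto 0
  have h1 : ∀ y : V, ∀ᶠ s : ℝ in 𝓝 0, v + s • y ∈ C := fun y =>
    (hlim y).eventually (h.isOpen.mem_nhds hv)
  obtain ⟨s, ⟨hs1, hs2⟩, hs0⟩ := ((((h1 x).and (h1 (-x))).filter_mono nhdsWithin_le_nhds).and
    (self_mem_nhdsWithin (a := (0 : ℝ)) (s := Ioi 0))).exists
  have hs0' : (0 : ℝ) < s := hs0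
  have e1 := hT _ (subset_closure hs1)
  have e2 := hT _ (subset_closure hs2)
  rw [map_add, hTv, zero_add, map_smul] at e1 e2
  rw [map_neg] at e2
  by_contra hne
  have hne' : s • T x ≠ 0 := smul_ne_zero hs0'.ne' hne
  have f1 := h.pos _ e1 hne'
  have f2 := h.pos _ e2 (by rw [smul_neg]; exact neg_ne_zero.2 hne')
  rw [smul_neg, map_neg] at f2
  linarith

/-- Limits of normalised sequences. -/
theorem exists_rank_one [FiniteDimensional ℝ V] [Nontrivial V] (h : IsStrictCone C τ)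
    (h0 : (0 : V) ∉ C) (hpres : ∀ g, ∀ v ∈ C, ρ g v ∈ C) (hp : Prop' C τ ρ) {g : ℕ → G}
    (hg : Tendsto g atTop cofinite) :
    ∃ (φ : ℕ → ℕ) (c : ℕ → ℝ) (T : V →L[ℝ] V) (p : V), StrictMono φ ∧ (∀ n, 0 < c n) ∧
      Tendsto (fun n => c n • (ρ (g (φ n)) : V →L[ℝ] V)) atTop (𝓝 T) ∧ p ∈ Bd C τ ∧
      (∀ x, T x = τ (T x) • p) ∧ ∀ v ∈ C, 0 < τ (T v) := by
  have hρ0 : ∀ g : G, (ρ g : V →L[ℝ] V) ≠ 0 := by
    intro g h1
    obtain ⟨x, hx⟩ := exists_ne (0 : V)
    have h2 : (ρ g : V →L[ℝ] V) x = 0 := by rw [h1]; rfl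
    have h3 : ρ g x = 0 := h2
    exact hx (by simpa using h3)
  set d : ℕ → ℝ := fun n => ‖(ρ (g n) : V →L[ℝ] V)‖⁻¹ with hd
  have hd0 : ∀ n, 0 < d n := fun n => inv_pos.2 (norm_pos_iff.2 (hρ0 _))
  have hnorm : ∀ n, ‖d n • (ρ (g n) : V →L[ℝ] V)‖ = 1 := by
    intro n
    rw [norm_smul, Real.norm_of_nonneg (hd0 n).le, hd]
    exact inv_mul_cancel₀ (norm_ne_zero_iff.2 (hρ0 _))
  have : ProperSpace (V →L[ℝ] V) := FiniteDimensional.proper ℝ (V →L[ℝ] V)
  obtain ⟨T, hT1, φ, hφ, hTl⟩ := (isCompact_sphere (0 : V →L[ℝ] V) 1).tendsto_subseq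
    (x := fun n => d n • (ρ (g n) : V →L[ℝ] V)) (fun n => by simpa using hnorm n)
  have hT0 : T ≠ 0 := by
    intro h1
    rw [h1] at hT1
    simp at hT1
  have happ : Continuous fun p : (V →L[ℝ] V) × V => p.1 p.2 := by fun_prop
  have hTv : ∀ v, Tendsto (fun n => d (φ n) • ρ (g (φ n)) v) atTop (𝓝 (T v)) := fun v =>
    (happ.tendsto (T, v)).comp (hTl.prodMk_nhds tendsto_const_nhds)
  have hTcl : ∀ v ∈ closure C, T v ∈ closure C := fun v hv =>
    isClosed_closure.mem_of_tendsto (hTv v)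
      (Eventually.of_forall fun n => h.smul_cl (hd0 _) (pres_cl hpres _ hv))
  have hTpos : ∀ v ∈ C, 0 < τ (T v) := fun v hv =>
    h.pos _ (hTcl v (subset_closure hv)) fun h1 => hT0 (eq_zero_of_cone h hTcl hv h1)
  -- the image is in the boundary
  have hTbd : ∀ v ∈ Dom C τ, proj τ (T v) ∈ Bd C τ := by
    intro v hv
    have h1 := proj_mem_Kbar h (hTcl v (subset_closure hv.1)) (hTpos v hv.1)
    refine ⟨h1.1, fun h2 => ?_, h1.2⟩
    have h3 : proj τ (T v) ∈ Dom C τ := ⟨h2, h1.2⟩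
    have h4 : Tendsto (fun n => pa τ ρ (g (φ n)) v) atTop (𝓝 (proj τ (T v))) := by
      have h5 := (continuousAt_proj (hTpos v hv.1).ne').tendsto.comp (hTv v)
      refine h5.congr fun n => ?_
      simp only [Function.comp]
      rw [proj_smul (hd0 _).ne']
      rfl
    have hPS : ProperSpace V := FiniteDimensional.proper ℝ V
    obtain ⟨L, hL, hvL, hLC⟩ := exists_compact_between (isCompact_singleton
      (x := proj τ (T v))) h.isOpen (by simpa using h2)
    have hL' : IsCompact (L ∩ {v | τ v = 1}) :=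
      hL.inter_right (isClosed_eq τ.continuous continuous_const)
    have hfin := hp.two (K := {v}) (L := L ∩ {v | τ v = 1}) (by simpa using hv)
      (fun v hv => ⟨hLC hv.1, hv.2⟩) isCompact_singleton hL'
    have h6 := (hg.comp hφ.tendsto_atTop).eventually hfin.compl_mem_cofinite
    have h7 := h4.eventually (isOpen_interior.mem_nhds (hvL rfl))
    obtain ⟨n, hn1, hn2⟩ := (h6.and h7).exists
    exact hn1 ⟨v, rfl, interior_subset hn2, (pa_dom h hpres _ hv).2⟩
  obtain ⟨o₁, ho₁⟩ := h.nonempty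
  set o := proj τ o₁ with ho
  have hoD : o ∈ Dom C τ := proj_mem_Dom h ho₁ (h.pos_of_mem h0 ho₁)
  set p := proj τ (T o) with hpdef
  have hpB : p ∈ Bd C τ := hTbd o hoD
  have hTC : ∀ v ∈ C, T v = τ (T v) • p := by
    intro v hv
    have hvp := h.pos_of_mem h0 hv
    have h1 : proj τ (T (proj τ v)) ∈ Bd C τ := hTbd _ (proj_mem_Dom h hv hvp)
    have h2 : proj τ (T (proj τ v)) = proj τ (T v) := by
      rw [proj.eq_1 τ v, map_smul, proj_smul (inv_ne_zero hvp.ne')]
    rw [h2] at h1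
    have h3 : proj τ (T v) = p := by
      by_contra hne
      have h4 : v + o ∈ C := h.add_mem _ hv _ hoD.1
      have h5 := (hTbd _ (proj_mem_Dom h h4 (h.pos_of_mem h0 h4))).2.1
      apply h5
      have e1 : proj τ (T (proj τ (v + o))) = proj τ (T v + T o) := by
        rw [proj.eq_1 τ (v + o), map_smul,
          proj_smul (inv_ne_zero (h.pos_of_mem h0 h4).ne'), map_add]
      rw [e1, proj_add (hTpos v hv) (hTpos o hoD.1)]
      have a1 := hTpos v hv
      have a2 := hTpos o hoD.1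
      refine comb_mem h ⟨h1.1, h1.2.2⟩ ⟨hpB.1, hpB.2.2⟩ hne ?_ ?_
      · rw [map_add]; positivity
      · rw [map_add, div_lt_one (by positivity)]; linarith
    rw [← h3, proj, smul_smul, mul_inv_cancel₀ (hTpos v hv).ne', one_smul]
  refine ⟨φ, fun n => d (φ n), T, p, hφ, fun n => hd0 _, hTl, hpB, ?_, hTpos⟩
  -- the linear extension
  intro x
  have h1 : ∀ᶠ s : ℝ in 𝓝 0, o + s • x ∈ C := by
    have : Continuous fun s : ℝ => o + s • x := by fun_prop
    have h2 : Tendsto (fun s : ℝ => o + s • x) (𝓝 0) (𝓝 o) := by simpa using this.tendsto 0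
    exact h2.eventually (h.isOpen.mem_nhds hoD.1)
  obtain ⟨s, hs1, hs0⟩ := ((h1.filter_mono nhdsWithin_le_nhds).and
    (self_mem_nhdsWithin (a := (0 : ℝ)) (s := Ioi 0))).exists
  have hs0' : (0 : ℝ) < s := hs0
  have h2 := hTC _ hs1
  have h3 := hTC _ hoD.1
  have h4 : s • T x = s • (τ (T x) • p) := by
    have e1 : s • T x = T (o + s • x) - T o := by rw [map_add, map_smul]; abel
    rw [e1, h2, h3, ← sub_smul, ← map_sub, ← map_sub]
    have e2 : o + s • x - o = s • x := by abel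
    rw [e2, map_smul, map_smul, smul_eq_mul, mul_smul]
  exact smul_right_injective V hs0'.ne' h4

/-- The action on the closed domain is a convergence action. -/
theorem conv_cone [FiniteDimensional ℝ V] (hdim : 2 ≤ Module.finrank ℝ V) (h : IsStrictCone C τ)
    (h0 : (0 : V) ∉ C) (hpres : ∀ g, ∀ v ∈ C, ρ g v ∈ C) (hp : Prop' C τ ρ) {g : ℕ → G}
    (hg : Tendsto g atTop cofinite) :
    ∃ (φ : ℕ → ℕ) (p q : V), StrictMono φ ∧ p ∈ Bd C τ ∧ q ∈ Bd C τ ∧
      ∀ (v : ℕ → V) (v₀ : V), v₀ ∈ Kbar C τ → v₀ ≠ q → Tendsto v atTop (𝓝 v₀) →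
        Tendsto (fun n => pa τ ρ (g (φ n)) (v n)) atTop (𝓝 p) := by
  have hnt : Nontrivial V := Module.nontrivial_of_finrank_pos (R := ℝ) (by omega)
  obtain ⟨φ, c, T, p, hφ, hc, hT, hpB, hTp, hTpos⟩ := exists_rank_one h h0 hpres hp hg
  have hg' : Tendsto (fun n => (g (φ n))⁻¹) atTop cofinite := by
    have h1 : Tendsto (fun x : G => x⁻¹) cofinite cofinite := inv_injective.tendsto_cofinite
    exact h1.comp (hg.comp hφ.tendsto_atTop)
  obtain ⟨ψ, c', T', q, hψ, hc', hT', hqB, hTq, hTpos'⟩ := exists_rank_one h h0 hpres hp hg'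
  have happ : Continuous fun p : (V →L[ℝ] V) × V => p.1 p.2 := by fun_prop
  have hTψ : Tendsto (fun n => c (ψ n) • (ρ (g (φ (ψ n))) : V →L[ℝ] V)) atTop (𝓝 T) :=
    hT.comp hψ.tendsto_atTop
  -- `τ (T q) = 0`
  have hTq0 : T q = 0 := by
    have hcomp : Continuous fun p : (V →L[ℝ] V) × (V →L[ℝ] V) => p.1.comp p.2 :=
      (ContinuousLinearMap.compL ℝ V V V).continuous₂
    have h1 := (hcomp.tendsto (T, T')).comp (hTψ.prodMk_nhds hT')
    have h2 : ∀ x, Tendsto (fun n => (c (ψ n) * c' n) • x) atTop (𝓝 (T (T' x))) := by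
      intro x
      have h3 := (happ.tendsto (T.comp T', x)).comp (h1.prodMk_nhds (tendsto_const_nhds (x := x)))
      refine h3.congr fun n => ?_
      change c (ψ n) • ρ (g (φ (ψ n))) (c' n • ρ (g (φ (ψ n)))⁻¹ x) = _
      rw [map_smul, ← rho_mul, mul_inv_cancel, rho_one, smul_smul]
    obtain ⟨o₁, ho₁⟩ := h.nonempty
    have ho₁p := h.pos_of_mem h0 ho₁
    set s := τ (T (T' o₁)) / τ o₁ with hs
    have h4 : Tendsto (fun n => c (ψ n) * c' n) atTop (𝓝 s) := by
      have h5 : Tendsto (fun n => τ ((c (ψ n) * c' n) • o₁)) atTop (𝓝 (τ (T (T' o₁)))) :=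
        (τ.continuous.tendsto _).comp (h2 o₁)
      have h6 := h5.div_const (τ o₁)
      refine h6.congr fun n => ?_
      rw [map_smul, smul_eq_mul]
      field_simp
    have h7 : ∀ x, T (T' x) = s • x := fun x =>
      tendsto_nhds_unique (h2 x) (h4.smul_const x)
    have hs0 : s = 0 := by
      by_contra hs0
      -- all vectors are multiples of `p`
      have h8 : ∀ x : V, ∃ r : ℝ, r • p = x := by
        intro x
        refine ⟨s⁻¹ * τ (T (T' x)), ?_⟩
        rw [mul_smul, ← hTp, h7, smul_smul, inv_mul_cancel₀ hs0, one_smul]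
      have h9 := finrank_le_one p h8
      omega
    have h10 := h7 o₁
    rw [hs0, zero_smul, hTq o₁, map_smul] at h10
    rcases smul_eq_zero.1 h10 with h11 | h11
    · exact absurd h11 (hTpos' o₁ ho₁).ne'
    · exact h11
  refine ⟨φ ∘ ψ, p, q, hφ.comp hψ, hpB, hqB, fun v v₀ hv₀ hne hv => ?_⟩
  have hTcl : ∀ v ∈ closure C, T v ∈ closure C := fun v hv => by
    have h1 : Tendsto (fun n => c n • ρ (g (φ n)) v) atTop (𝓝 (T v)) :=
      (happ.tendsto (T, v)).comp (hT.prodMk_nhds tendsto_const_nhds)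
    exact isClosed_closure.mem_of_tendsto h1
      (Eventually.of_forall fun n => h.smul_cl (hc _) (pres_cl hpres _ hv))
  have hpos : 0 < τ (T v₀) := by
    refine h.pos _ (hTcl _ hv₀.1) fun h1 => ?_
    have h2 := h.strict _ hv₀.1 _ hqB.1 hv₀.2 hqB.2.2 hne
    have h3 := hTpos _ h2
    rw [map_add, h1, hTq0, add_zero, map_zero] at h3
    exact lt_irrefl _ h3
  have h1 : Tendsto (fun n => c (ψ n) • ρ (g (φ (ψ n))) (v n)) atTop (𝓝 (T v₀)) :=
    (happ.tendsto (T, v₀)).comp (hTψ.prodMk_nhds hv)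
  have h2 := (continuousAt_proj hpos.ne').tendsto.comp h1
  have h3 : proj τ (T v₀) = p := by
    rw [proj, hTp v₀, map_smul, hpB.2.2, smul_eq_mul, mul_one, smul_smul,
      inv_mul_cancel₀ hpos.ne', one_smul]
  rw [h3] at h2
  refine h2.congr fun n => ?_
  simp only [Function.comp]
  rw [proj_smul (hc _).ne']
  rfl

end Dyn

end Pool.Agent.H72.Dj
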