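import Pool.Agent.H72.Dj.T8

/-!
# Cocompactness, equivariant maps
-/

set_option autoImplicit false

open Filter Topology Set Metric Pool.Agent.TH289.C

namespace Pool.Agent.H72.Dj

section Maps

variable {V : Type} [NormedAddCommGroup V] [NormedSpace ℝ V] {G : Type} [Group G] {E : Type}
  [NormedAddCommGroup E] [InnerProductSpace ℝ E]
variable {C : Set V} {τ : V →L[ℝ] ℝ} {α : G →* (Sph E ≃ₜ Sph E)} {ρ : G →* (V ≃L[ℝ] V)}

theorem compactSpace_sph [FiniteDimensional ℝ E] : CompactSpace (Sph E) := by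
  have : ProperSpace E := FiniteDimensional.proper ℝ E
  exact isCompact_iff_compactSpace.1 (isCompact_sphere (0 : E) 1)

theorem infinite_sph [FiniteDimensional ℝ E] (hE : 2 ≤ Module.finrank ℝ E) : Infinite (Sph E) := by
  have hrank : 1 < Module.rank ℝ E := by
    rw [← Module.finrank_eq_rank]
    exact_mod_cast hE
  have hc := isConnected_sphere hrank (0 : E) zero_le_one
  obtain ⟨x, hx⟩ := hc.nonempty
  have hx1 : ‖x‖ = 1 := by simpa using hx
  have hnt : (sphere (0 : E) 1).Nontrivial := by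
    refine ⟨x, hx, -x, by simpa using hx1, fun h => ?_⟩
    have h2 : (2 : ℝ) • x = 0 := by
      rw [two_smul]
      nth_rewrite 2 [h]
      simp
    have h4 : x = 0 := by simpa using h2
    rw [h4, norm_zero] at hx1
    exact zero_ne_one hx1
  exact (hc.isPreconnected.infinite_of_nontrivial hnt).to_subtype

theorem exists_triple [FiniteDimensional ℝ E] (hE : 2 ≤ Module.finrank ℝ E) :
    ∃ a : Fin 3 → Sph E, ∀ i j, i ≠ j → a i ≠ a j := by
  have := infinite_sph hE
  let e := Infinite.natEmbedding (Sph E)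
  refine ⟨fun i => e i, fun i j hij h => hij ?_⟩
  exact Fin.ext (e.injective h)

/-- A proper action on the domain is cocompact. -/
theorem cocompact_of_proper [FiniteDimensional ℝ E] [FiniteDimensional ℝ V]
    (hE : 2 ≤ Module.finrank ℝ E) (hV : Module.finrank ℝ V ≤ Module.finrank ℝ E + 1)
    (hα : IsConvergenceAction α) (hco : CocompactOnTriples α) (h : IsStrictCone C τ)
    (h0 : (0 : V) ∉ C) (hpres : ∀ g, ∀ v ∈ C, ρ g v ∈ C) (hp : Prop' C τ ρ) :
    ∃ K ⊆ Dom C τ, IsCompact K ∧ ∀ v ∈ Dom C τ, ∃ g, pa τ ρ g v ∈ K := by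
  have hcS : CompactSpace (Sph E) := compactSpace_sph
  obtain ⟨a, ha⟩ := exists_triple hE
  obtain ⟨ε, hε, hco⟩ := hco
  obtain ⟨o, ho⟩ := h.nonempty
  have hW : ∀ t : Fin 3 → Sph E, 0 < sep t → Wv α ρ ε o t ∈ C := fun t ht =>
    Wv_mem' hα h hpres hε hco ho ht
  have hcl : IsCompact {t : Fin 3 → Sph E | ε ≤ sep t} :=
    (isClosed_le continuous_const continuous_sep).isCompact
  refine ⟨(fun t => proj τ (Wv α ρ ε o t)) '' {t | ε ≤ sep t}, ?_, ?_, ?_⟩
  · rintro _ ⟨t, ht, rfl⟩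
    have := hW t (hε.trans_le ht)
    exact proj_mem_Dom h this (h.pos_of_mem h0 this)
  · refine hcl.image_of_continuousOn fun t ht => ?_
    have h1 := hW t (hε.trans_le ht)
    exact (ContinuousAt.comp (g := proj τ) (f := Wv α ρ ε o)
      (continuousAt_proj (h.pos_of_mem h0 h1).ne')
      (continuousAt_Wv hα hε o (hε.trans_le ht))).continuousWithinAt
  · intro v hv
    obtain ⟨p, hp1, hpv⟩ := Phi_surj hE hV hα h h0 hpres hp hε hco ha ho hv
    have hs := sep_sig ha hp1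
    obtain ⟨g, hg⟩ := exists_wt_pos hε hco hs
    refine ⟨g, act α g (sig a p), hg, ?_⟩
    change proj τ (Wv α ρ ε o (act α g (sig a p))) = _
    rw [Wv_act hα hε o g hs, ← hpv, pa_proj g (h.pos_of_mem h0 (hW _ hs))]

/-- Points on the ray to a boundary point have translates in a compact set. -/
theorem ray_seq [FiniteDimensional ℝ V] (h : IsStrictCone C τ)
    (hpres : ∀ g, ∀ v ∈ C, ρ g v ∈ C) {K : Set V} (hKD : K ⊆ Dom C τ) (hKc : IsCompact K)
    (hK : ∀ v ∈ Dom C τ, ∃ g, pa τ ρ g v ∈ K) {q o : V} (hq : q ∈ Bd C τ) (ho : o ∈ Dom C τ) :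
    ∃ (s : ℕ → ℝ) (g : ℕ → G), (∀ n, 0 < s n) ∧ (∀ n, s n < 1) ∧ Tendsto s atTop (𝓝 0) ∧
      Tendsto g atTop cofinite ∧ ∀ n, pa τ ρ (g n) ((1 - s n) • q + s n • o) ∈ K := by
  set s : ℕ → ℝ := fun n => 1 / ((n : ℝ) + 2) with hs
  have hs0 : ∀ n, 0 < s n := fun n => by positivity
  have hs1 : ∀ n, s n < 1 := fun n => by
    rw [hs]
    simp only
    rw [div_lt_one (by positivity)]
    have : (0 : ℝ) ≤ n := Nat.cast_nonneg n
    linarith
  choose g hg using fun n => hK _ (comb_mem_Dom h hq ho (hs0 n) (hs1 n))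
  have hslim : Tendsto s atTop (𝓝 0) := by
    have h1 : Tendsto (fun n : ℕ => 1 / (((n + 1 : ℕ) : ℝ) + 1)) atTop (𝓝 0) :=
      (tendsto_one_div_add_atTop_nhds_zero_nat (𝕜 := ℝ)).comp (tendsto_add_atTop_nat 1)
    refine h1.congr fun n => ?_
    rw [hs]
    push_cast
    congr 1
    ring
  have hvlim : Tendsto (fun n => (1 - s n) • q + s n • o) atTop (𝓝 q) := by
    have : Tendsto (fun n => (1 - s n) • q + s n • o) atTop
        (𝓝 ((1 - (0 : ℝ)) • q + (0 : ℝ) • o)) :=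
      ((tendsto_const_nhds.sub hslim).smul_const q).add (hslim.smul_const o)
    simpa using this
  refine ⟨s, g, hs0, hs1, hslim, ?_, hg⟩
  refine tendsto_cofinite_of_ne fun g₀ => ?_
  have hqK : q ∈ Kbar C τ := ⟨hq.1, hq.2.2⟩
  have h1 : Tendsto (fun n => pa τ ρ g₀ ((1 - s n) • q + s n • o)) atTop (𝓝 (pa τ ρ g₀ q)) :=
    (continuousAt_pa h hpres g₀ hqK).tendsto.comp hvlim
  have h2 : pa τ ρ g₀ q ∉ K := by
    intro hm
    have h3 := pa_dom h hpres g₀⁻¹ (hKD hm)
    rw [pa_inv h hpres _ hqK] at h3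
    exact hq.2.1 h3.1
  filter_upwards [h1.eventually (hKc.isClosed.isOpen_compl.mem_nhds h2)] with n hn heq
  exact hn (heq ▸ hg n)

/-- The limits of a sequence on both sides of an equivariant map. -/
theorem lim_map [FiniteDimensional ℝ V] [FiniteDimensional ℝ E] (hV2 : 2 ≤ Module.finrank ℝ V)
    (hα : IsConvergenceAction α)
    (h : IsStrictCone C τ) (h0 : (0 : V) ∉ C) (hpres : ∀ g, ∀ v ∈ C, ρ g v ∈ C)
    (hp : Prop' C τ ρ) {f : Sph E → V} (hf : Continuous f) (hfB : ∀ x, f x ∈ Bd C τ)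
    (hfe : ∀ g x, f (α g x) = pa τ ρ g (f x))
    {z : Fin 3 → Sph E} (hz : ∀ i j, i ≠ j → f (z i) ≠ f (z j)) {g : ℕ → G}
    (hg : Tendsto g atTop cofinite) :
    ∃ (φ : ℕ → ℕ) (a b : Sph E), StrictMono φ ∧ Conv α (g ∘ φ) a b ∧
      ∀ (v : ℕ → V) (v₀ : V), v₀ ∈ Dom C τ → Tendsto v atTop (𝓝 v₀) →
        Tendsto (fun n => pa τ ρ (g (φ n)) (v n)) atTop (𝓝 (f a)) := by
  obtain ⟨φ, p, q, hφ, hpB, hqB, hpq⟩ := conv_cone hV2 h h0 hpres hp hg
  obtain ⟨ψ, hψ, a, b, hab⟩ := hα (g ∘ φ) (hg.comp hφ.tendsto_atTop)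
  have hab' : Conv α ((g ∘ φ) ∘ ψ) a b := hab
  have hfp : f a = p := by
    obtain ⟨i, hib, hiq⟩ : ∃ i, z i ≠ b ∧ f (z i) ≠ q := by
      obtain ⟨i, j, hij, hi, hj⟩ := two_of_three (z := z) (fun i j hij h1 => hz i j hij (by rw [h1])) b
      by_cases h1 : f (z i) = q
      · exact ⟨j, hj, fun h2 => hz i j hij (h1.trans h2.symm)⟩
      · exact ⟨i, hi, h1⟩
    have h1 : Tendsto (fun n => f (α (g (φ (ψ n))) (z i))) atTop (𝓝 (f a)) :=
      (hf.tendsto a).comp (hab'.tendsto hib)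
    have h2 : Tendsto (fun n => pa τ ρ (g (φ (ψ n))) (f (z i))) atTop (𝓝 p) :=
      (hpq (fun _ => f (z i)) (f (z i)) ⟨(hfB _).1, (hfB _).2.2⟩ hiq
        tendsto_const_nhds).comp hψ.tendsto_atTop
    exact tendsto_nhds_unique h1 (h2.congr fun n => (hfe _ _).symm)
  refine ⟨φ ∘ ψ, a, b, hφ.comp hψ, hab', fun v v₀ hv₀ hv => ?_⟩
  rw [hfp]
  by_contra hcon
  -- pass to a subsequence
  rw [tendsto_iff_seq_tendsto] at hcon
  push Not at hcon
  obtain ⟨x, hx, hx'⟩ := hcon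
  apply hx'
  -- extend the sequence
  have hne : v₀ ≠ q := fun h1 => hqB.2.1 (h1 ▸ hv₀.1)
  have h1 : ∀ v₁ : ℕ → V, Tendsto v₁ atTop (𝓝 v₀) →
      Tendsto (fun n => pa τ ρ (g (φ n)) (v₁ n)) atTop (𝓝 p) := fun v₁ hv₁ =>
    hpq v₁ v₀ (dom_kbar hv₀) hne hv₁
  classical
  let v₁ : ℕ → V := fun m => if hm : ∃ n, ψ n = m then v hm.choose else v₀
  have hv₁ψ : ∀ n, v₁ (ψ n) = v n := by
    intro n
    have hm : ∃ n', ψ n' = ψ n := ⟨n, rfl⟩
    simp only [v₁]
    rw [dif_pos hm, hψ.injective hm.choose_spec]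
  have hv₁ : Tendsto v₁ atTop (𝓝 v₀) := by
    rw [Metric.tendsto_atTop] at hv ⊢
    intro ε hε
    obtain ⟨N, hN⟩ := hv ε hε
    refine ⟨ψ N, fun m hm => ?_⟩
    by_cases hm' : ∃ n, ψ n = m
    · simp only [v₁]
      rw [dif_pos hm']
      apply hN
      have := hm'.choose_spec
      rw [← this] at hm
      exact hψ.le_iff_le.1 hm
    · simp only [v₁]
      rw [dif_neg hm', dist_self]
      exact hε
  have h2 := ((h1 v₁ hv₁).comp hψ.tendsto_atTop).comp hx
  refine h2.congr fun n => ?_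
  simp only [Function.comp, hv₁ψ]

/-- An equivariant map to the boundary of a divisible domain is bijective. -/
theorem bij_of_cocompact [FiniteDimensional ℝ V] [FiniteDimensional ℝ E]
    (hV2 : 2 ≤ Module.finrank ℝ V) (hα : IsConvergenceAction α)
    (h : IsStrictCone C τ) (h0 : (0 : V) ∉ C) (hpres : ∀ g, ∀ v ∈ C, ρ g v ∈ C)
    (hp : Prop' C τ ρ) {K : Set V} (hKD : K ⊆ Dom C τ) (hKc : IsCompact K)
    (hK : ∀ v ∈ Dom C τ, ∃ g, pa τ ρ g v ∈ K)
    {f : Sph E → V} (hf : Continuous f) (hfB : ∀ x, f x ∈ Bd C τ)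
    (hfe : ∀ g x, f (α g x) = pa τ ρ g (f x))
    {z : Fin 3 → Sph E} (hz : ∀ i j, i ≠ j → f (z i) ≠ f (z j)) :
    Function.Injective f ∧ ∀ q ∈ Bd C τ, ∃ x, f x = q := by
  obtain ⟨o₁, ho₁⟩ := h.nonempty
  set o := proj τ o₁ with ho
  have hoD : o ∈ Dom C τ := proj_mem_Dom h ho₁ (h.pos_of_mem h0 ho₁)
  have key : ∀ q : V, q ∈ Bd C τ → (∃ x, f x = q) ∧ ∃ b : Sph E, ∀ w : Sph E, f w = q → w = b := by
    intro q hq
    have hqK : q ∈ Kbar C τ := ⟨hq.1, hq.2.2⟩
    have hq0 : q ≠ 0 := ne_zero_of_one hq.2.2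
    obtain ⟨s, g, hs0, hs1, hs, hg, hgK⟩ := ray_seq h hpres hKD hKc hK hq hoD
    have hvD : ∀ n, (1 - s n) • q + s n • o ∈ Dom C τ := fun n =>
      comb_mem_Dom h hq hoD (hs0 n) (hs1 n)
    have hvlim : Tendsto (fun n => (1 - s n) • q + s n • o) atTop (𝓝 q) := by
      have : Tendsto (fun n => (1 - s n) • q + s n • o) atTop
          (𝓝 ((1 - (0 : ℝ)) • q + (0 : ℝ) • o)) :=
        ((tendsto_const_nhds.sub hs).smul_const q).add (hs.smul_const o)
      simpa using this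
    constructor
    · -- surjectivity
      have hg' : Tendsto (fun n => (g n)⁻¹) atTop cofinite :=
        (inv_injective.tendsto_cofinite).comp hg
      obtain ⟨k, hkK, φ, hφ, hk⟩ := hKc.tendsto_subseq hgK
      obtain ⟨ψ, a, b, hψ, hab, hv⟩ := lim_map hV2 hα h h0 hpres hp hf hfB hfe hz
        (hg'.comp hφ.tendsto_atTop)
      refine ⟨a, ?_⟩
      -- points of `K` attract to `f a`
      have h1 := hv (fun n => pa τ ρ (g (φ (ψ n))) ((1 - s (φ (ψ n))) • q + s (φ (ψ n)) • o)) k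
        (hKD hkK) (hk.comp hψ.tendsto_atTop)
      have h2 : Tendsto (fun n => (1 - s (φ (ψ n))) • q + s (φ (ψ n)) • o) atTop (𝓝 q) :=
        (hvlim.comp hφ.tendsto_atTop).comp hψ.tendsto_atTop
      refine tendsto_nhds_unique h1 (h2.congr fun n => ?_)
      simp only [Function.comp]
      rw [pa_inv h hpres _ (dom_kbar (hvD _))]
    · obtain ⟨φ, a, b, hφ, hab, hv⟩ := lim_map hV2 hα h h0 hpres hp hf hfB hfe hz hg
      refine ⟨b, fun w hw => ?_⟩
      by_contra hwb
      have ha : f a ∉ K := fun hm => (hfB a).2.1 (hKD hm).1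
      have hl1 : Tendsto (fun n => proj τ (ρ (g (φ n)) q)) atTop (𝓝 (f a)) := by
        have h2 := (hf.tendsto a).comp (hab.tendsto hwb)
        refine h2.congr fun n => ?_
        simp only [Function.comp]
        rw [hfe, hw]
        rfl
      have hl2 : Tendsto (fun n => proj τ (ρ (g (φ n)) o)) atTop (𝓝 (f a)) :=
        hv (fun _ => o) o hoD tendsto_const_nhds
      have hA : ∀ n, 0 < τ (ρ (g (φ n)) ((1 - s (φ n)) • q)) := fun n =>
        pos_cl h hpres _ (h.smul_cl (by linarith [hs1 (φ n)]) hq.1)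
          (smul_ne_zero (by linarith [hs1 (φ n)]) hq0)
      have hB : ∀ n, 0 < τ (ρ (g (φ n)) (s (φ n) • o)) := fun n =>
        pos_cl h hpres _ (subset_closure (h.smul_mem _ (hs0 _) _ hoD.1))
          (smul_ne_zero (hs0 _).ne' (ne_zero_of_one hoD.2))
      have hl3 : Tendsto (fun n => pa τ ρ (g (φ n)) ((1 - s (φ n)) • q + s (φ n) • o)) atTop
          (𝓝 (f a)) := by
        have := tendsto_comb (c := fun n => τ (ρ (g (φ n)) ((1 - s (φ n)) • q)) /
          (τ (ρ (g (φ n)) ((1 - s (φ n)) • q) + ρ (g (φ n)) (s (φ n) • o)))) hl1 hl2 (fun n => by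
            have a1 := hA n
            have a2 := hB n
            rw [map_add τ]
            exact ⟨by positivity, by rw [div_le_one (by positivity)]; linarith⟩)
        refine this.congr fun n => ?_
        unfold pa
        rw [map_add (ρ (g (φ n))), proj_add (hA n) (hB n)]
        congr 2
        · rw [map_smul, proj_smul (by linarith [hs1 (φ n)])]
        · rw [map_smul, proj_smul (hs0 _).ne']
      have h4 : f a ∈ K := hKc.isClosed.mem_of_tendsto hl3
        (Eventually.of_forall fun n => hgK (φ n))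
      exact ha h4
  refine ⟨fun x y hxy => ?_, fun q hq => (key q hq).1⟩
  obtain ⟨b, hb⟩ := (key (f x) (hfB x)).2
  rw [hb x rfl, hb y hxy.symm]

/-- Every point of the sphere is conical. -/
theorem conical [FiniteDimensional ℝ E] (hE : 2 ≤ Module.finrank ℝ E)
    (hα : IsConvergenceAction α) (hco : CocompactOnTriples α) (x : Sph E) :
    ∃ (g : ℕ → G) (a b : Sph E), a ≠ b ∧ Conv α g b x ∧
      Tendsto (fun n => α (g n) x) atTop (𝓝 a) := by
  have hcS : CompactSpace (Sph E) := compactSpace_sph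
  obtain ⟨ε, hε, hco⟩ := hco
  obtain ⟨z, hz⟩ := exists_triple hE
  -- a point different from `x`
  obtain ⟨i, j, hij, hi, hj⟩ := two_of_three hz x
  set w := z i with hw
  have hy : ∀ n : ℕ, ∃ y : Sph E, y ≠ x ∧ y ≠ w ∧ dist y x < 1 / ((n : ℝ) + 1) := by
    intro n
    have h1 := near_sig hz x (η := min (1 / ((n : ℝ) + 1)) (dist w x))
      (lt_min (by positivity) (dist_pos.2 hi))
    have h2 : ∃ᶠ p in 𝓝 (x : E), ‖p‖ < 1 := by
      have h3 : (x : E) ∈ closure (ball (0 : E) 1) := by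
        rw [closure_ball _ one_ne_zero]
        simp
      have h4 := mem_closure_iff_frequently.1 h3
      refine h4.mono fun p hp => by simpa using hp
    obtain ⟨p, hp1, k, l, hkl, hk, hl⟩ := (h2.and_eventually h1).exists
    have hne : sig z p k ≠ sig z p l := by
      have h5 := (sep_sig hz hp1).trans_le (sep_le _ hkl)
      exact dist_pos.1 h5
    have hwk : ∀ k, dist (sig z p k) x < min (1 / ((n : ℝ) + 1)) (dist w x) → sig z p k ≠ w := by
      intro k hk h6
      rw [h6] at hk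
      exact lt_irrefl _ (hk.trans_le (min_le_right _ _))
    by_cases h5 : sig z p k = x
    · exact ⟨sig z p l, fun h6 => hne (h5.trans h6.symm), hwk l hl, hl.trans_le (min_le_left _ _)⟩
    · exact ⟨sig z p k, h5, hwk k hk, hk.trans_le (min_le_left _ _)⟩
  choose y hyx hyw hyd using hy
  choose g hg1 hg2 hg3 using fun n => hco x (y n) w (hyx n).symm (hyw n) (Ne.symm hi)
  obtain ⟨φ, hφ, b, hb⟩ := attract_of_near hα hε (ξ := x) (fun n => (g n)⁻¹)
    (fun n => ![x, y n, w]) (fun n => ⟨0, 1, by decide, by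
      change dist x x < _
      rw [dist_self]; positivity, hyd n⟩) (fun n => by
      rw [inv_inv]
      exact le_min (hg1 n) (le_min (hg2 n) (hg3 n)))
  have hb' : Conv α (fun n => (g (φ n))⁻¹) x b := hb
  have hb'' : Conv α (fun n => g (φ n)) b x := by
    refine hb'.inv.congr fun n => ?_
    rw [inv_inv]
  obtain ⟨a, -, ψ, hψ, ha⟩ := (isCompact_univ (X := Sph E)).tendsto_subseq
    (x := fun n => α (g (φ n)) x) (fun n => mem_univ _)
  refine ⟨fun n => g (φ (ψ n)), a, b, fun hab => ?_, hb''.comp hψ.tendsto_atTop, ha⟩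
  have h1 : Tendsto (fun n => α (g (φ (ψ n))) w) atTop (𝓝 b) :=
    (hb''.tendsto hi).comp hψ.tendsto_atTop
  have h2 : Tendsto (fun n => dist (α (g (φ (ψ n))) x) (α (g (φ (ψ n))) w)) atTop
      (𝓝 (dist a b)) := ha.dist h1
  have h3 : ε ≤ dist a b := ge_of_tendsto h2 (Eventually.of_forall fun n => hg3 _)
  rw [hab, dist_self] at h3
  linarith

end Maps

end Pool.Agent.H72.Dj
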